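import Pool.Agent.Lib.TWLY.C

/-!
# The chain: finite shape

`chain_fin`: the sizes of the jets `z g` are bounded, and for all `g` in a set stable under the
multiplications by the powers of `p` the relation
`|∑ κ i * z (p ^ (t - i) g) ^ p ^ (i + 1)| ≤ max (|z (p ^ (t + 1) g)|) 0` holds: then `z g` has size
`≤ 0` for these `g`.
-/

set_option autoImplicit false

namespace Pool.Agent.TWCF

open Pool.Agent.H15JM (RVal)
open Pool.Agent.D2 (Ctx0)
open Pool.Agent.TWM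

universe u

variable {k Ω : Type u} [Field k] [Field Ω] [Algebra k Ω] {v : RVal Ω} {p : ℕ} {κ : ℕ → k} {t : ℕ}
  {I : Type*} [MulAction ℕ I]

/-- One step of the chain. -/
theorem chain_step (hk : Ctx0 k v) (hp : p.Prime) (hκ : κ t ≠ 0) {z : I → Ω} {g : I} {c : ℝ}
    (hc : c < 0) (hz0 : z g ≠ 0) (hvz : v (z g) ≤ c)
    (rel : ∀ r ≤ 0, v.Ge r (z (p ^ (t + 1) • g)) →
      v.Ge r (∑ i ∈ Finset.range (t + 1), algebraMap k Ω (κ i) * z (p ^ (t - i) • g) ^ p ^ (i + 1))) :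
    ∃ j : ℕ, 0 < j ∧ z (p ^ j • g) ≠ 0 ∧ v (z (p ^ j • g)) ≤ (p : ℝ) ^ j * c := by
  by_contra hno
  push Not at hno
  have hp0 : (0 : ℝ) < p := by exact_mod_cast hp.pos
  have hQ0 : (0 : ℝ) < (p : ℝ) ^ (t + 1) := pow_pos hp0 _
  have hQc : (p : ℝ) ^ (t + 1) * c < 0 := mul_neg_of_pos_of_neg hQ0 hc
  -- the size of the sum
  have hs : Gt v ((p : ℝ) ^ (t + 1) * c)
      (∑ i ∈ Finset.range (t + 1), algebraMap k Ω (κ i) * z (p ^ (t - i) • g) ^ p ^ (i + 1)) := by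
    by_cases h0 : z (p ^ (t + 1) • g) = 0
    · exact Gt.of_ge (rel 0 le_rfl fun h => absurd h0 h) hQc
    · have h1 := hno (t + 1) (Nat.succ_pos t) h0
      rcases le_total (v (z (p ^ (t + 1) • g))) 0 with h2 | h2
      · exact Gt.of_ge (rel _ h2 fun _ => le_rfl) h1
      · exact Gt.of_ge (rel 0 le_rfl fun _ => h2) hQc
  rw [Finset.sum_range_succ, Nat.sub_self, pow_zero, one_smul] at hs
  -- the other terms
  have ho : Gt v ((p : ℝ) ^ (t + 1) * c)
      (∑ i ∈ Finset.range t, algebraMap k Ω (κ i) * z (p ^ (t - i) • g) ^ p ^ (i + 1)) := by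
    refine Gt.sum _ _ fun i hi => ?_
    have hi' : i < t := Finset.mem_range.1 hi
    by_cases h0 : z (p ^ (t - i) • g) = 0
    · rw [h0, zero_pow (pow_ne_zero _ hp.ne_zero), mul_zero]
      exact fun h => absurd rfl h
    have h1 := hno (t - i) (by omega) h0
    intro hne
    have h2 : v.Ge 0 (algebraMap k Ω (κ i)) := hk.ge _
    have h3 : v.Ge ((p ^ (i + 1) : ℕ) * v (z (p ^ (t - i) • g))) (z (p ^ (t - i) • g) ^ p ^ (i + 1)) :=
      TWM.ge_pow (fun _ => le_rfl) _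
    have h4 := h2.mul h3 hne
    refine lt_of_lt_of_le ?_ h4
    rw [zero_add]
    have h5 : (p : ℝ) ^ (t + 1) * c = ((p ^ (i + 1) : ℕ) : ℝ) * ((p : ℝ) ^ (t - i) * c) := by
      rw [← mul_assoc]
      congr 1
      push_cast
      rw [← pow_add]
      congr 1
      omega
    rw [h5]
    exact mul_lt_mul_of_pos_left h1 (by exact_mod_cast pow_pos hp.pos _)
  have hl : Gt v ((p : ℝ) ^ (t + 1) * c) (algebraMap k Ω (κ t) * z g ^ p ^ (t + 1)) := by
    have h := hs.sub ho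
    rwa [add_sub_cancel_left] at h
  have hκ0 : algebraMap k Ω (κ t) ≠ 0 := (map_ne_zero _).2 hκ
  have hvκ : v (algebraMap k Ω (κ t)) = 0 := hk.triv _ hκ
  have hpow : z g ^ p ^ (t + 1) ≠ 0 := pow_ne_zero _ hz0
  have h6 := hl (mul_ne_zero hκ0 hpow)
  rw [v.map_mul hκ0 hpow, hvκ, zero_add, v.map_pow hz0] at h6
  push_cast at h6
  have h7 : (p : ℝ) ^ (t + 1) * v (z g) ≤ (p : ℝ) ^ (t + 1) * c :=
    mul_le_mul_of_nonneg_left hvz hQ0.le
  linarith

/-- **Finite shape.** -/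
theorem chain_fin (hk : Ctx0 k v) (hp : p.Prime) (hκ : κ t ≠ 0) {z : I → Ω} {B : ℝ}
    (hB : ∀ g, v.Ge (-B) (z g)) {S : Set I} (hS : ∀ g ∈ S, ∀ j : ℕ, p ^ j • g ∈ S)
    (rel : ∀ g ∈ S, ∀ r ≤ 0, v.Ge r (z (p ^ (t + 1) • g)) →
      v.Ge r (∑ i ∈ Finset.range (t + 1), algebraMap k Ω (κ i) * z (p ^ (t - i) • g) ^ p ^ (i + 1))) :
    ∀ g ∈ S, v.Ge 0 (z g) := by
  intro g hg
  by_contra hno
  have hz : z g ≠ 0 ∧ v (z g) < 0 := by
    constructor
    · rintro h0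
      exact hno fun h => absurd h0 h
    · by_contra h
      exact hno fun _ => not_lt.1 h
  obtain ⟨hz0, hc⟩ := hz
  -- the sizes grow
  have key : ∀ n : ℕ, ∃ g' ∈ S, z g' ≠ 0 ∧ v (z g') ≤ (2 : ℝ) ^ n * v (z g) := by
    intro n
    induction n with
    | zero => exact ⟨g, hg, hz0, by simp⟩
    | succ n ih =>
      obtain ⟨g', hg', h0, h1⟩ := ih
      have h2 : (2 : ℝ) ^ n * v (z g) < 0 := mul_neg_of_pos_of_neg (by positivity) hc
      obtain ⟨j, hj, h3, h4⟩ := chain_step hk hp hκ h2 h0 h1 (rel g' hg')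
      refine ⟨_, hS g' hg' j, h3, h4.trans ?_⟩
      have h5 : (2 : ℝ) ≤ (p : ℝ) ^ j := by
        have h6 : 2 ≤ p ^ j := hp.two_le.trans (Nat.le_self_pow hj.ne' p)
        exact_mod_cast h6
      calc (p : ℝ) ^ j * (2 ^ n * v (z g)) ≤ 2 * (2 ^ n * v (z g)) :=
            mul_le_mul_of_nonpos_right h5 h2.le
        _ = 2 ^ (n + 1) * v (z g) := by ring
  obtain ⟨n, hn⟩ : ∃ n : ℕ, (2 : ℝ) ^ n * v (z g) < -B := by
    obtain ⟨n, hn⟩ := pow_unbounded_of_one_lt (B / (-v (z g))) (by norm_num : (1 : ℝ) < 2)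
    refine ⟨n, ?_⟩
    have hpos : 0 < -v (z g) := by linarith
    rw [div_lt_iff₀ hpos] at hn
    linarith
  obtain ⟨g', _, h0, h1⟩ := key n
  have h2 := hB g' h0
  linarith

end Pool.Agent.TWCF
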