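import Pool.Agent.Lib.TWCF.ShpU

/-!
# The jets of index not divisible by `p`

For the frame `FrU`: if the jets of `z` of order one are in `O_0`, all the jets `Z g` with `p ∤ g 0` or
`p ∤ g 1` are in `O_0`.
* `der_aeval`: the chain rule;
* `curve`: the first order term of the law `T y (T (α a) θ) = T (γ a) θ`;
* `FrU.jet_small`: the assertion;
* `Jets.natV`: the first order jets are the natural values of the derivations of the frame.
-/

set_option autoImplicit false

open MvPolynomial

namespace Pool.Agent.TWCF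

open Pool.Agent.H15JM (RVal)
open Pool.Agent.D2 (Ctx0)
open Pool.Agent.TWM
open Pool.Agent.TWS (IsoE SphC)
open Pool.Agent.TWLY (Ex PP mk mk_eta dg)
open Pool.Agent.TWCY
open Pool.Agent.TWRZ (Fam FrU Pk P0 Pl Att)

universe u

section chain

variable {R : Type*} [CommRing R]

/-- The chain rule. -/
theorem der_aeval (g : Fin 2 → Polynomial R) (q : MvPolynomial (Fin 2) R) :
    Polynomial.derivative (aeval g q) =
      ∑ j, aeval g (pderiv j q) * Polynomial.derivative (g j) := by
  induction q using MvPolynomial.induction_on with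
  | C a =>
    rw [aeval_C, Polynomial.algebraMap_eq, Polynomial.derivative_C]
    symm
    refine Finset.sum_eq_zero fun j _ => ?_
    rw [pderiv_C, map_zero, zero_mul]
  | add p q hp hq =>
    rw [map_add, map_add, hp, hq, ← Finset.sum_add_distrib]
    refine Finset.sum_congr rfl fun j _ => ?_
    rw [map_add, map_add, add_mul]
  | mul_X p i hp =>
    rw [map_mul, Polynomial.derivative_mul, hp, aeval_X, Finset.sum_mul]
    have h1 : ∀ j, aeval g (pderiv j (p * X i)) * Polynomial.derivative (g j) =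
        aeval g (pderiv j p) * Polynomial.derivative (g j) * g i +
          (if j = i then aeval g p * Polynomial.derivative (g i) else 0) := by
      intro j
      rw [pderiv_mul, pderiv_X, map_add, map_mul, map_mul, aeval_X]
      by_cases hj : j = i
      · subst hj
        rw [Pi.single_eq_same, map_one, if_pos rfl]
        ring
      · rw [if_neg hj, Pi.single_eq_of_ne (fun h => hj h.symm), map_zero]
        ring
    rw [Finset.sum_congr rfl fun j _ => h1 j, Finset.sum_add_distrib, Finset.sum_ite_eq',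
      if_pos (Finset.mem_univ _)]

/-- The coefficient of index one. -/
theorem coeff_one_aeval (g : Fin 2 → Polynomial R) (q : MvPolynomial (Fin 2) R) :
    (aeval g q).coeff 1 =
      ∑ j, eval (fun i => (g i).coeff 0) (pderiv j q) * (g j).coeff 1 := by
  have h1 : ∀ P : Polynomial R, P.coeff 1 = (Polynomial.derivative P).coeff 0 := by
    intro P
    rw [Polynomial.coeff_derivative]
    simp
  have h2 : ∀ r : MvPolynomial (Fin 2) R,
      (aeval g r).coeff 0 = eval (fun i => (g i).coeff 0) r := by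
    intro r
    rw [Polynomial.coeff_zero_eq_eval_zero]
    have h3 : (Polynomial.evalRingHom (0 : R)).comp
        (aeval g : MvPolynomial (Fin 2) R →ₐ[R] Polynomial R).toRingHom =
        eval (fun i => (g i).coeff 0) := by
      refine MvPolynomial.ringHom_ext (fun a => ?_) fun i => ?_
      · simp
      · simp [Polynomial.coeff_zero_eq_eval_zero]
    exact DFunLike.congr_fun h3 r
  rw [h1, der_aeval, Polynomial.finsetSum_coeff]
  refine Finset.sum_congr rfl fun j _ => ?_
  rw [Polynomial.mul_coeff_zero, h2, ← h1]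

end chain

variable {k Ω : Type u} [Field k] [Field Ω] [Algebra k Ω] {v : RVal Ω}
  {F : IntermediateField k Ω} {T : (Fin 2 → k) → Ω →ₐ[k] Ω} {z : Ω} {Z : Ex → Ω}

/-- Values of a curve. -/
theorem eval_curve (γ : Fin 2 → Polynomial k) (q : MvPolynomial (Fin 2) Ω) (a : k) :
    (aeval (fun i => (γ i).map (algebraMap k Ω)) q).eval (algebraMap k Ω a) =
      eval (pt fun i => (γ i).eval a) q := by
  have h3 : (Polynomial.evalRingHom (algebraMap k Ω a)).comp
      (aeval (fun i => (γ i).map (algebraMap k Ω)) :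
        MvPolynomial (Fin 2) Ω →ₐ[Ω] Polynomial Ω).toRingHom =
      eval (pt fun i => (γ i).eval a) := by
    refine MvPolynomial.ringHom_ext (fun b => ?_) fun i => ?_
    · simp
    · simp only [RingHom.comp_apply, AlgHom.toRingHom_eq_coe, RingHom.coe_coe, aeval_X,
        Polynomial.coe_evalRingHom, eval_X, pt]
      rw [Polynomial.eval_map, Polynomial.eval₂_at_apply]
  exact DFunLike.congr_fun h3 q

/-- **The first order term of the law.** -/
theorem curve [Infinite k] (hk : Ctx0 k v) (hT : ∀ c, IsoE v v (T c)) {θ : Ω}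
    {q : MvPolynomial (Fin 2) Ω} (hq : ∀ c, v.Ge 0 (T c θ - θ - eval (pt c) q)) (y : Fin 2 → k)
    (α γ : Fin 2 → Polynomial k)
    (hlaw : ∀ a : k, T y (T (fun i => (α i).eval a) θ) = T (fun i => (γ i).eval a) θ)
    {i : Fin 2} (hα : α = fun j => if j = i then Polynomial.X else 0) :
    v.Ge 0 (T y (coeff (Finsupp.single i 1) q) -
      ∑ j, eval (pt fun i => (γ i).coeff 0) (pderiv j q) * algebraMap k Ω ((γ j).coeff 1)) := by
  classical
  obtain ⟨P, hP⟩ : ∃ P : Polynomial Ω, P =
      Polynomial.C (T y θ - θ) + aeval (fun i => (α i).map (algebraMap k Ω))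
        (MvPolynomial.map (T y : Ω →+* Ω) q) -
      aeval (fun i => (γ i).map (algebraMap k Ω)) q := ⟨_, rfl⟩
  have h1 : ∀ a : k, v.Ge 0 (P.eval (algebraMap k Ω a)) := by
    intro a
    rw [hP, Polynomial.eval_sub, Polynomial.eval_add, Polynomial.eval_C, eval_curve, eval_curve,
      eval_map_pt]
    have e : T y θ - θ + T y (eval (pt fun i => (α i).eval a) q) -
        eval (pt fun i => (γ i).eval a) q =
        (T (fun i => (γ i).eval a) θ - θ - eval (pt fun i => (γ i).eval a) q) -
        T y (T (fun i => (α i).eval a) θ - θ - eval (pt fun i => (α i).eval a) q) := by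
      rw [map_sub, map_sub, hlaw]
      ring
    rw [e]
    exact (hq _).sub ((hT y).ge_iff.2 (hq _))
  have h2 := TWRZ.coeff_ge hk h1 1
  have h3 : P.coeff 1 = T y (coeff (Finsupp.single i 1) q) -
      ∑ j, eval (pt fun i => (γ i).coeff 0) (pderiv j q) * algebraMap k Ω ((γ j).coeff 1) := by
    rw [hP, Polynomial.coeff_sub, Polynomial.coeff_add, Polynomial.coeff_C_succ, zero_add,
      coeff_one_aeval, coeff_one_aeval]
    congr 1
    · have e0 : (fun i => ((α i).map (algebraMap k Ω)).coeff 0) = (0 : Fin 2 → Ω) := by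
        funext j
        rw [Polynomial.coeff_map, hα]
        simp only [Pi.zero_apply]
        split_ifs <;> simp
      rw [e0, Finset.sum_eq_single_of_mem i (Finset.mem_univ i)]
      · rw [Polynomial.coeff_map, hα]
        simp only [if_true, Polynomial.coeff_X_one, map_one, mul_one]
        rw [eval_zero, constantCoeff_eq, coeff_pderiv, coeff_map]
        simp
      · intro j _ hj
        rw [Polynomial.coeff_map, hα]
        simp only [if_neg hj, Polynomial.coeff_zero, map_zero, mul_zero]
    · have e1 : (fun i => ((γ i).map (algebraMap k Ω)).coeff 0) =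
          pt (Ω := Ω) fun i => (γ i).coeff 0 := by
        funext i
        rw [Polynomial.coeff_map]
        rfl
      rw [e1]
      refine Finset.sum_congr rfl fun j _ => ?_
      rw [Polynomial.coeff_map]
  rwa [h3] at h2

variable {W : IntermediateField k Ω} {w u : Ω} {T₁ : k → Ω →ₐ[k] Ω} {U : k → Ω} {δ : k → k → k}
  {T₂ : k × k → Ω →ₐ[k] Ω}

/-- The curve in the second direction. -/
theorem FrU.curve_one [Infinite k] (hk : Ctx0 k v) (h : FrU v W w u T₁ U δ T₂) {θ : Ω}
    (hθ : θ ∈ cadj v (cadj v W w) u) {q : MvPolynomial (Fin 2) Ω}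
    (hq : ∀ c, v.Ge 0 (TF T₂ c θ - θ - eval (pt c) q)) (y : Fin 2 → k) :
    v.Ge 0 (TF T₂ y (coeff (Finsupp.single 1 1) q) - eval (pt y) (pderiv 1 q)) := by
  classical
  have h1 := curve hk (fun c => h.fam.iso _) hq y
    (fun j => if j = 1 then Polynomial.X else 0)
    ![Polynomial.C (y 0), Polynomial.C (y 1) + Polynomial.X] (i := 1) (fun a => by
      change T₂ (y 0, y 1) (T₂ _ θ) = T₂ _ θ
      rw [h.law _ _ _ hθ]
      congr 2
      simp [h.d0']) rfl
  have e1 : (fun i => ((![Polynomial.C (y 0), Polynomial.C (y 1) + Polynomial.X] :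
      Fin 2 → Polynomial k) i).coeff 0) = y := by
    funext i
    fin_cases i <;> simp
  rw [e1, Fin.sum_univ_two] at h1
  have e2 : ((![Polynomial.C (y 0), Polynomial.C (y 1) + Polynomial.X] :
      Fin 2 → Polynomial k) 0).coeff 1 = 0 := by simp
  have e3 : ((![Polynomial.C (y 0), Polynomial.C (y 1) + Polynomial.X] :
      Fin 2 → Polynomial k) 1).coeff 1 = 1 := by simp
  rw [e2, e3, map_zero, map_one, mul_zero, mul_one, zero_add] at h1
  exact h1

/-- The curve in the first direction. -/
theorem FrU.curve_zero [Infinite k] (hk : Ctx0 k v) (h : FrU v W w u T₁ U δ T₂) {θ : Ω}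
    (hθ : θ ∈ cadj v (cadj v W w) u) {q : MvPolynomial (Fin 2) Ω}
    (hq : ∀ c, v.Ge 0 (TF T₂ c θ - θ - eval (pt c) q)) (y : Fin 2 → k) :
    ∃ a : k, v.Ge 0 (TF T₂ y (coeff (Finsupp.single 0 1) q) -
      (eval (pt y) (pderiv 0 q) + eval (pt y) (pderiv 1 q) * algebraMap k Ω a)) := by
  classical
  obtain ⟨w₀, -, ι, hι, A, B, hAB, -⟩ := h.lm
  obtain ⟨γ₁, hγ₁⟩ : ∃ γ₁ : Polynomial k, γ₁ = Polynomial.C (y 1) +
      ∑ i, Polynomial.C ((A i).eval (y 0)) * B i := ⟨_, rfl⟩
  have hγe : ∀ a : k, γ₁.eval a = y 1 + δ (y 0) a := by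
    intro a
    rw [hγ₁, Polynomial.eval_add, Polynomial.eval_C, Polynomial.eval_finsetSum, hAB]
    congr 1
    exact Finset.sum_congr rfl fun i _ => by rw [Polynomial.eval_mul, Polynomial.eval_C]
  have h1 := curve hk (fun c => h.fam.iso _) hq y
    (fun j => if j = 0 then Polynomial.X else 0)
    ![Polynomial.C (y 0) + Polynomial.X, γ₁] (i := 0) (fun a => by
      change T₂ (y 0, y 1) (T₂ _ θ) = T₂ _ θ
      rw [h.law _ _ _ hθ]
      congr 2
      simp [hγe]) rfl
  have e1 : (fun i => ((![Polynomial.C (y 0) + Polynomial.X, γ₁] :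
      Fin 2 → Polynomial k) i).coeff 0) = y := by
    funext i
    fin_cases i
    · simp
    · simp [Polynomial.coeff_zero_eq_eval_zero, hγe, h.d0']
  rw [e1, Fin.sum_univ_two] at h1
  have e2 : ((![Polynomial.C (y 0) + Polynomial.X, γ₁] :
      Fin 2 → Polynomial k) 0).coeff 1 = 1 := by simp
  rw [e2, map_one, mul_one] at h1
  exact ⟨_, h1⟩

/-- **The jets of index not divisible by `p` are small**, if those of order one are. -/
theorem FrU.jet_small [IsAlgClosed Ω] [Infinite k] {p : ℕ} [hp : Fact p.Prime] [CharP k p]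
    (hk : Ctx0 k v) (h : FrU v W w u T₁ U δ T₂) (hz : Lim v (cadj v (cadj v W w) u) 0 z)
    (hZ : Jets v (cadj v (cadj v W w) u) (TF T₂) z Z)
    (h0 : v.Ge 0 (Z (Finsupp.single 0 1))) (h1 : v.Ge 0 (Z (Finsupp.single 1 1))) {g : Ex}
    {i : Fin 2} (hg : ¬ p ∣ g i) : v.Ge 0 (Z g) := by
  classical
  refine ge_zero_of_eps fun ε hε => ?_
  obtain ⟨θ, hθ, hzθ⟩ := Lim.neg_eps hz hε
  obtain ⟨q, hqF, -, hq⟩ := (FrU.polF h).pol θ hθ 0
  have hn := hZ.near ε hε θ hθ hzθ q hq
  have hs : ∀ g, v.Ge 0 (Z g) → v.Ge (-ε) (coeff g q) := by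
    intro g hg
    have e : coeff g q = Z g - (Z g - coeff g q) := by ring
    rw [e]
    exact (hg.mono (by linarith)).sub (hn g)
  -- the second direction
  have h2 : ∀ g, v.Ge (-ε) (coeff g (pderiv 1 q)) := by
    intro g
    refine ge_coeff hk (fun y => ?_) g
    have e := FrU.curve_one hk h hθ hq y
    have h3 : v.Ge (-ε) (TF T₂ y (coeff (Finsupp.single 1 1) q)) :=
      ((FrU.polF h).iso y).ge_iff.2 (hs _ h1)
    have h4 := h3.sub (e.mono (by linarith : -ε ≤ 0))
    rwa [sub_sub_cancel] at h4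
  have h3 : ∀ g, v.Ge (-ε) (coeff g (pderiv 0 q)) := by
    intro g
    refine ge_coeff hk (fun y => ?_) g
    obtain ⟨a, e⟩ := FrU.curve_zero hk h hθ hq y
    have h3 : v.Ge (-ε) (TF T₂ y (coeff (Finsupp.single 0 1) q)) :=
      ((FrU.polF h).iso y).ge_iff.2 (hs _ h0)
    have h4 := h3.sub (e.mono (by linarith : -ε ≤ 0))
    rw [sub_sub_cancel] at h4
    have h5 := (ge_eval hk h2 y).mul (hk.ge a)
    rw [add_zero] at h5
    have h6 := h4.sub h5
    rwa [add_sub_cancel_right] at h6
  -- the coefficients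
  have h4 : v.Ge (-ε) (coeff g q) := by
    have h5 : v.Ge (-ε) (coeff (g - Finsupp.single i 1) (pderiv i q)) := by
      fin_cases i
      · exact h3 _
      · exact h2 _
    have hgi : g i ≠ 0 := fun h => hg (by rw [h]; exact dvd_zero p)
    have e1 : g - Finsupp.single i 1 + Finsupp.single i 1 = g := by
      ext j
      by_cases hj : j = i
      · subst hj
        simp only [Finsupp.add_apply, Finsupp.tsub_apply, Finsupp.single_eq_same]
        omega
      · simp [Ne.symm hj]
    rw [coeff_pderiv, e1] at h5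
    have e2 : (((g - Finsupp.single i 1 : Ex) i : ℕ) : Ω) + 1 = algebraMap k Ω (g i : k) := by
      rw [Finsupp.tsub_apply, Finsupp.single_eq_same, map_natCast]
      have : ((g i - 1 : ℕ) : Ω) + 1 = ((g i - 1 + 1 : ℕ) : Ω) := by push_cast; ring
      rw [this, Nat.sub_add_cancel (Nat.one_le_iff_ne_zero.2 hgi)]
    rw [e2] at h5
    have hne : (g i : k) ≠ 0 := by
      rw [Ne, CharP.cast_eq_zero_iff k p]
      exact hg
    refine ge_of_unit_mul ((map_ne_zero _).2 hne) (hk.triv _ hne) ?_
    rwa [mul_comm] at h5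
  have e : Z g = (Z g - coeff g q) + coeff g q := by ring
  rw [e]
  exact (hn g).add h4

/-- The first order jets are the natural values of the derivations of the frame. -/
theorem Jets.natV (h : Jets v F T z Z) (hT : PolF v F T) {dd : Ω → Ω} {i : Fin 2}
    (hdd : ∀ θ ∈ F, ∀ q : MvPolynomial (Fin 2) Ω, (∀ c, v.Ge 0 (T c θ - θ - eval (pt c) q)) →
      v.Ge 0 (dd θ - coeff (Finsupp.single i 1) q)) :
    NatV v F dd z (Z (Finsupp.single i 1)) := by
  intro ε hε θ hθ hzθ
  obtain ⟨q, -, -, hq⟩ := hT.pol θ hθ 0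
  have h1 := h.near ε hε θ hθ hzθ q hq (Finsupp.single i 1)
  have e : Z (Finsupp.single i 1) - dd θ = (Z (Finsupp.single i 1) - coeff (Finsupp.single i 1) q) -
      (dd θ - coeff (Finsupp.single i 1) q) := by ring
  rw [e]
  exact h1.sub ((hdd θ hθ q hq).mono (by linarith))

end Pool.Agent.TWCF
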