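import Pool.Agent.Lib.TWCF.Jets

/-!
# Finite shape and the structure `Shp`
-/

set_option autoImplicit false

open MvPolynomial

namespace Pool.Agent.TWCF

open Pool.Agent.H15JM (RVal)
open Pool.Agent.D2 (Ctx0)
open Pool.Agent.TWM
open Pool.Agent.TWS (IsoE SphC)
open Pool.Agent.TWLY
open Pool.Agent.TWCY

universe u

variable {k Ω : Type u} [Field k] [Field Ω] [Algebra k Ω] {v : RVal Ω}
  {F : IntermediateField k Ω} {T : (Fin 2 → k) → Ω →ₐ[k] Ω} {z x a₀ : Ω} {e : k}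
  {p : ℕ} {κ : ℕ → k} {t : ℕ} {D : Ω → Ω} {Z : Ex → Ω} {A : MvPolynomial (Fin 2) Ω}

/-- A unit does not change the size. -/
theorem ge_of_unit_mul {ξ y : Ω} {r : ℝ} (hξ : ξ ≠ 0) (hv : v ξ = 0) (h : v.Ge r (ξ * y)) :
    v.Ge r y := by
  intro hy
  have h1 := h (mul_ne_zero hξ hy)
  rwa [v.map_mul hξ hy, hv, zero_add] at h1

/-- Coefficients of `PP` at multiples. -/
theorem coeff_PP_smul [hp : Fact p.Prime] [CharP Ω p] (q : MvPolynomial (Fin 2) Ω) (g : Ex) :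
    coeff (p ^ (t + 1) • g) (PP p κ t q) = ∑ i ∈ Finset.range (t + 1),
      algebraMap k Ω (κ i) * coeff (p ^ (t - i) • g) q ^ p ^ (i + 1) := by
  unfold PP
  rw [coeff_sum]
  refine Finset.sum_congr rfl fun i hi => ?_
  have hi' : i < t + 1 := Finset.mem_range.1 hi
  rw [IsScalarTower.algebraMap_apply k Ω (MvPolynomial (Fin 2) Ω), algebraMap_eq, coeff_C_mul]
  congr 1
  have e1 : p ^ (t + 1) • g = p ^ (i + 1) • (p ^ (t - i) • g) := by
    rw [smul_smul, ← pow_add]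
    congr 2
    omega
  rw [e1, coeff_pow_smul]

/-- **The relation between the jets.** -/
theorem Jets.rel [Infinite k] [hp : Fact p.Prime] [CharP Ω p] (hk : Ctx0 k v)
    (h : Jets v F T z Z) (hT : PolF v F T) (hD : Drv v F D) (hx : x ∈ F) (hTx : ∀ c : Fin 2 → k, T c x = x)
    (hD0 : D x ≠ 0) (hDv : v (D x) = 0) (ha : a₀ ∈ F) (hAF : ∀ g, coeff g A ∈ F)
    (hA : ∀ c, v.Ge 0 (T c a₀ - a₀ - eval (pt c) A))
    (tie : ∀ ε : ℝ, 0 < ε → ∃ θ ∈ F, v.Ge (-ε) (z - θ) ∧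
      ∃ b ∈ F, v.Ge (-ε) (algebraMap k Ω e * θ + x * PP p κ t θ + a₀ - b ^ p))
    {g : Ex} (hg : coeff (p ^ (t + 1) • g) A = 0) {r : ℝ} (hr : r ≤ 0)
    (hZ : v.Ge r (Z (p ^ (t + 1) • g))) :
    v.Ge r (∑ i ∈ Finset.range (t + 1),
      algebraMap k Ω (κ i) * Z (p ^ (t - i) • g) ^ p ^ (i + 1)) := by
  have hpp : (1 : ℝ) ≤ (p : ℝ) ^ (t + 1) := by
    have : (1 : ℝ) ≤ p := by exact_mod_cast hp.out.one_lt.le
    exact one_le_pow₀ this
  have hp0 : (0 : ℝ) < (p : ℝ) ^ (t + 1) := by linarith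
  refine ge_of_sub_eps hp0 fun ε hε => ?_
  obtain ⟨θ, hθ, hzθ, b, hb, hrel⟩ := tie ε hε
  obtain ⟨M, hM0, hM⟩ : ∃ M : ℝ, 0 ≤ M ∧ v.Ge (-M) x := by
    refine ⟨max 0 (-v x), le_max_left _ _, fun _ => ?_⟩
    have := le_max_right (0 : ℝ) (-v x)
    linarith
  obtain ⟨q, hqF, -, hq⟩ := hT.pol θ hθ (1 + M)
  obtain ⟨s, hsF, -, hs⟩ := hT.pol b hb 1
  -- the identity at the points
  have h1 : ∀ c : Fin 2 → k, v.Ge (-ε) (algebraMap k Ω e * eval (pt c) q + x * PP p κ t (eval (pt c) q) +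
      eval (pt c) A - eval (pt c) s ^ p) := by
    intro c
    obtain ⟨d, hd⟩ : ∃ d, d = T c θ - θ - eval (pt c) q := ⟨_, rfl⟩
    obtain ⟨d', hd'⟩ : ∃ d', d' = T c b - b - eval (pt c) s := ⟨_, rfl⟩
    have hd1 : v.Ge (1 + M) d := by
      rw [hd]
      exact hq c
    have hd2 : v.Ge 1 d' := by
      rw [hd']
      exact hs c
    have e1 : algebraMap k Ω e * eval (pt c) q + x * PP p κ t (eval (pt c) q) +
        eval (pt c) A - eval (pt c) s ^ p =
        (T c (algebraMap k Ω e * θ + x * PP p κ t θ + a₀ - b ^ p) -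
          (algebraMap k Ω e * θ + x * PP p κ t θ + a₀ - b ^ p)) -
        (algebraMap k Ω e * d + x * PP p κ t d) - (T c a₀ - a₀ - eval (pt c) A) + d' ^ p := by
      have hq' : eval (pt c) q = T c θ - θ - d := by rw [hd]; ring
      have hs' : eval (pt c) s = T c b - b - d' := by rw [hd']; ring
      rw [hq', hs', PP_sub, PP_sub, sub_pow_char, sub_pow_char, map_sub, map_add, map_add, map_mul,
        map_mul, map_pow, AlgHom.commutes, hTx, PP_map]
      ring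
    rw [e1]
    have hP : v.Ge (1 + M) (PP p κ t d) := by
      unfold PP
      refine RVal.Ge.sum _ _ fun i _ => ?_
      have h2 := (hk.ge (κ i)).mul (TWM.ge_pow hd1 (p ^ (i + 1)))
      refine h2.mono ?_
      have h3 : (1 : ℝ) ≤ ((p ^ (i + 1) : ℕ) : ℝ) := by
        exact_mod_cast Nat.one_le_iff_ne_zero.2 (pow_ne_zero _ hp.out.ne_zero)
      nlinarith
    refine ((((hT.iso c).ge_iff.2 hrel).sub hrel).sub ?_ |>.sub ((hA c).mono (by linarith))).add ?_
    · refine RVal.Ge.add ?_ ?_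
      · have h2 := (hk.ge e).mul hd1
        exact h2.mono (by linarith)
      · have h2 := hM.mul hP
        exact h2.mono (by linarith)
    · have h2 := TWM.ge_pow hd2 p
      refine h2.mono ?_
      have : (0 : ℝ) ≤ p := Nat.cast_nonneg p
      linarith
  -- the derivation
  have h2 : ∀ g, v.Ge (-ε) (coeff g (C (algebraMap k Ω e) * Dc D q + C (D x) * PP p κ t q +
      Dc D A)) := by
    intro g
    refine ge_coeff hk (fun c => ?_) g
    have m1 : eval (pt c) q ∈ F := eval_pt_mem hqF c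
    have m2 : eval (pt c) A ∈ F := eval_pt_mem hAF c
    have m3 : eval (pt c) s ∈ F := eval_pt_mem hsF c
    have m4 : algebraMap k Ω e * eval (pt c) q ∈ F := mul_mem (F.algebraMap_mem _) m1
    have m5 : x * PP p κ t (eval (pt c) q) ∈ F := mul_mem hx (PP_mem m1)
    have m6 := add_mem (add_mem m4 m5) m2
    have h3 := hD.norm _ (sub_mem m6 (pow_mem m3 p)) _ (h1 c)
    rw [hD.map_sub m6 (pow_mem m3 p), hD.map_pow_char m3, hD.add _ (add_mem m4 m5) _ m2,
      hD.add _ m4 _ m5, hD.map_smul _ m1, hD.mul _ hx _ (PP_mem m1), Drv.map_PP hD m1] at h3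
    rw [map_add, map_add, map_mul, map_mul, eval_C, eval_C, eval_Dc hD hqF, eval_Dc hD hAF, eval_PP]
    convert h3 using 1
    ring
  have h3 := h2 (p ^ (t + 1) • g)
  rw [coeff_add, coeff_add, coeff_C_mul, coeff_C_mul, coeff_Dc hD, coeff_Dc hD, hg, hD.map_zero,
    add_zero] at h3
  have hne := h.near ε hε θ hθ hzθ q fun c => (hq c).mono (by linarith)
  -- the jet of high order
  have h4 : v.Ge (min r (-ε)) (D (coeff (p ^ (t + 1) • g) q)) := by
    refine hD.norm _ (hqF _) _ ?_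
    have e1 : coeff (p ^ (t + 1) • g) q = Z (p ^ (t + 1) • g) -
        (Z (p ^ (t + 1) • g) - coeff (p ^ (t + 1) • g) q) := by ring
    rw [e1]
    exact (hZ.mono (min_le_left _ _)).sub ((hne _).mono (min_le_right _ _))
  have h5 : v.Ge (min r (-ε)) (coeff (p ^ (t + 1) • g) (PP p κ t q)) := by
    refine ge_of_unit_mul hD0 hDv ?_
    have e1 : D x * coeff (p ^ (t + 1) • g) (PP p κ t q) =
        (algebraMap k Ω e * D (coeff (p ^ (t + 1) • g) q) +
          D x * coeff (p ^ (t + 1) • g) (PP p κ t q)) -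
        algebraMap k Ω e * D (coeff (p ^ (t + 1) • g) q) := by ring
    rw [e1]
    have h6 := (hk.ge e).mul h4
    rw [zero_add] at h6
    exact (h3.mono (min_le_right _ _)).sub h6
  rw [coeff_PP_smul] at h5
  have hmin : r - (p : ℝ) ^ (t + 1) * ε ≤ min r (-ε) := by
    refine le_min ?_ ?_
    · nlinarith
    · nlinarith
  have e1 : ∑ i ∈ Finset.range (t + 1), algebraMap k Ω (κ i) * Z (p ^ (t - i) • g) ^ p ^ (i + 1) =
      ∑ i ∈ Finset.range (t + 1),
        algebraMap k Ω (κ i) * coeff (p ^ (t - i) • g) q ^ p ^ (i + 1) +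
      ∑ i ∈ Finset.range (t + 1), algebraMap k Ω (κ i) *
        (Z (p ^ (t - i) • g) - coeff (p ^ (t - i) • g) q) ^ p ^ (i + 1) := by
    rw [← Finset.sum_add_distrib]
    refine Finset.sum_congr rfl fun i _ => ?_
    have : ExpChar Ω p := ExpChar.prime hp.out
    rw [sub_pow_expChar_pow]
    ring
  rw [e1]
  refine (h5.mono hmin).add (RVal.Ge.sum _ _ fun i hi => ?_)
  have h6 := (hk.ge (κ i)).mul (TWM.ge_pow (hne (p ^ (t - i) • g)) (p ^ (i + 1)))
  refine h6.mono ?_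
  have hi' : i + 1 ≤ t + 1 := by
    have := Finset.mem_range.1 hi
    omega
  have h7 : (p : ℝ) ^ (i + 1) ≤ (p : ℝ) ^ (t + 1) :=
    pow_le_pow_right₀ (by exact_mod_cast hp.out.one_lt.le) hi'
  push_cast
  nlinarith

/-- **Finite shape.** -/
theorem Jets.fin [Infinite k] [hp : Fact p.Prime] [CharP Ω p] (hk : Ctx0 k v)
    (h : Jets v F T z Z) (hT : PolF v F T) (hD : Drv v F D) (hx : x ∈ F) (hTx : ∀ c : Fin 2 → k, T c x = x)
    (hD0 : D x ≠ 0) (hDv : v (D x) = 0) (ha : a₀ ∈ F) (hAF : ∀ g, coeff g A ∈ F)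
    (hA : ∀ c, v.Ge 0 (T c a₀ - a₀ - eval (pt c) A)) (hκ : κ t ≠ 0)
    (tie : ∀ ε : ℝ, 0 < ε → ∃ θ ∈ F, v.Ge (-ε) (z - θ) ∧
      ∃ b ∈ F, v.Ge (-ε) (algebraMap k Ω e * θ + x * PP p κ t θ + a₀ - b ^ p)) :
    ∃ S : Finset Ex, ∀ g ∉ S, v.Ge 0 (Z g) := by
  classical
  obtain ⟨d, hd⟩ : ∃ d : ℕ, ∀ m ∈ A.support, dg m ≤ d :=
    ⟨A.support.sup dg, fun m hm => Finset.le_sup (f := dg) hm⟩
  obtain ⟨B, hB⟩ := h.bdd
  have hpos : ∀ j : ℕ, 1 ≤ p ^ j := fun j => Nat.one_le_iff_ne_zero.2 (pow_ne_zero _ hp.out.ne_zero)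
  have h1 := chain_fin hk hp.out hκ hB (S := {g : Ex | d < dg g}) (fun g hg j => by
      have h2 : d < dg g := hg
      have h3 : d < dg (p ^ j • g) := by
        rw [dg_smul]
        calc d < dg g := h2
          _ = 1 * dg g := (one_mul _).symm
          _ ≤ p ^ j * dg g := Nat.mul_le_mul_right _ (hpos j)
      exact h3)
    fun g hg r hr hZ => h.rel hk hT hD hx hTx hD0 hDv ha hAF hA tie (by
      by_contra h2
      have h3 := hd _ (mem_support_iff.2 h2)
      have h4 : d < dg g := hg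
      rw [dg_smul] at h3
      have h5 : 1 * dg g ≤ p ^ (t + 1) * dg g := Nat.mul_le_mul_right _ (hpos _)
      omega) hr hZ
  refine ⟨(Finset.range (d + 1) ×ˢ Finset.range (d + 1)).image fun ab => TWLY.mk ab.1 ab.2,
    fun g hg => h1 g ?_⟩
  by_contra h2
  have h3 : dg g ≤ d := not_lt.1 h2
  refine hg (Finset.mem_image.2 ⟨(g 0, g 1), ?_, mk_eta g⟩)
  unfold dg at h3
  rw [Finset.mem_product, Finset.mem_range, Finset.mem_range]
  constructor <;> simp only [] <;> omega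

end Pool.Agent.TWCF
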