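import Mathlib.LinearAlgebra.LinearPMap
import Pool.Agent.Lib.TWS.Ac
import Pool.Agent.Lib.TWM.Defs

/-!
# Ingleton's theorem: extension of linear maps of norm `≤ 0` into a spherically complete field

`S` is a subfield of `Ω`.
* `exists_ext`: an `S`-linear map of norm `≤ 0` from an `S`-subspace of `Ω` to `Ω` extends to `Ω`;
* `exists_fun`: if `z` is a limit of the `S`-subspace `M` up to `0`, and `z ∉ M + O_0`, there is an
  `S`-linear `d : Ω → Ω` of norm `≤ 0`, `d M = 0`, `d z = 1`.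
-/

set_option autoImplicit false

namespace Pool.Agent.TWCF

open Pool.Agent.H15JM (RVal)
open Pool.Agent.H15JM.RVal
open Pool.Agent.TWM
open Pool.Agent.TWS (SphC exists_cofinal)
open Submodule

universe u

variable {k Ω : Type u} [Field k] [Field Ω] [Algebra k Ω] {v : RVal Ω} {S : IntermediateField k Ω}

/-- A partial linear map has norm `≤ 0`. -/
def PN (v : RVal Ω) (f : Ω →ₗ.[S] Ω) : Prop :=
  ∀ (x : f.domain) (c : ℝ), v.Ge c (x : Ω) → v.Ge c (f x)

/-- A linear map has norm `≤ 0`. -/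
def NL (v : RVal Ω) (f : Ω →ₗ[S] Ω) : Prop := ∀ (x : Ω) (c : ℝ), v.Ge c x → v.Ge c (f x)

/-- The value at one more element. -/
theorem exists_val (hs : SphC v) {f : Ω →ₗ.[S] Ω} (hf : PN v f) (y : Ω) (hy : y ∉ f.domain) :
    ∃ c : Ω, ∀ x : f.domain, v.Ge (v (y - (x : Ω))) (c - f x) := by
  have hne : ∀ x : f.domain, y - (x : Ω) ≠ 0 := fun x h =>
    hy (by rw [sub_eq_zero.1 h]; exact x.2)
  have key : ∀ a b : f.domain, v.Ge (min (v (y - (a : Ω))) (v (y - (b : Ω)))) (f a - f b) := by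
    intro a b
    have h1 : v.Ge (min (v (y - (a : Ω))) (v (y - (b : Ω)))) (((a - b : f.domain) : Ω)) := by
      have e : ((a - b : f.domain) : Ω) = (y - (b : Ω)) - (y - (a : Ω)) := by
        rw [AddSubgroupClass.coe_sub]; ring
      rw [e]
      exact RVal.Ge.sub ((RVal.ge_self _).mono (min_le_right _ _))
        ((RVal.ge_self _).mono (min_le_left _ _))
    have h2 := hf _ _ h1
    rwa [f.map_sub] at h2
  by_cases hbest : ∃ a : f.domain, ∀ b : f.domain, v (y - (b : Ω)) ≤ v (y - (a : Ω))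
  · obtain ⟨a, ha⟩ := hbest
    refine ⟨f a, fun x => (key a x).mono ?_⟩
    exact le_min (ha x) le_rfl
  · push Not at hbest
    haveI : Nonempty f.domain := ⟨0⟩
    obtain ⟨b, hb, hcof⟩ := exists_cofinal (fun a : f.domain => v (y - (a : Ω))) hbest
    obtain ⟨c, hc⟩ := hs (fun n => f (b n)) (fun n => v (y - (b n : Ω))) fun n m hnm => by
      refine (key (b m) (b n)).mono ?_
      exact le_min (hb.monotone hnm) le_rfl
    refine ⟨c, fun x => ?_⟩
    obtain ⟨n, hn⟩ := hcof x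
    have e : c - f x = (c - f (b n)) + (f (b n) - f x) := by ring
    rw [e]
    refine RVal.Ge.add ((hc n).mono hn.le) ((key (b n) x).mono ?_)
    exact le_min hn.le le_rfl

theorem ext_step (hs : SphC v) {f : Ω →ₗ.[S] Ω} (hf : PN v f) (hdom : f.domain ≠ ⊤) :
    ∃ g : Ω →ₗ.[S] Ω, f < g ∧ PN v g := by
  obtain ⟨y, -, hy⟩ : ∃ y ∈ (⊤ : Submodule S Ω), y ∉ f.domain :=
    SetLike.exists_of_lt (lt_top_iff_ne_top.2 hdom)
  obtain ⟨c, hc⟩ := exists_val hs hf y hy
  refine ⟨f.supSpanSingleton y c hy, ?_, ?_⟩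
  · refine lt_iff_le_not_ge.2 ⟨f.left_le_sup _ _, fun H => ?_⟩
    replace H := LinearPMap.domain_mono.monotone H
    rw [LinearPMap.domain_supSpanSingleton, sup_le_iff, span_le, Set.singleton_subset_iff] at H
    exact hy H.2
  · rintro ⟨z, hz⟩ r hr
    rcases mem_sup.1 hz with ⟨x, hx, y', hy', rfl⟩
    rcases mem_span_singleton.1 hy' with ⟨s, rfl⟩
    rw [LinearPMap.supSpanSingleton_apply_mk _ _ _ _ _ hx]
    simp only [RingHom.id_apply] at hr ⊢
    by_cases h0 : s = 0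
    · subst h0
      rw [zero_smul, add_zero] at hr ⊢
      exact hf _ _ hr
    · have hs0 : (s : Ω) ≠ 0 := fun h => h0 (Subtype.ext h)
      have h1 := hc (-(s⁻¹ • (⟨x, hx⟩ : f.domain)))
      have e1 : x + s • y = (s : Ω) * (y - ((-(s⁻¹ • (⟨x, hx⟩ : f.domain)) : f.domain) : Ω)) := by
        rw [NegMemClass.coe_neg, SetLike.val_smul, IntermediateField.smul_def,
          IntermediateField.smul_def, smul_eq_mul, smul_eq_mul, IntermediateField.coe_inv]
        field_simp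
        ring
      have e2 : f ⟨x, hx⟩ + s • c = (s : Ω) * (c - f (-(s⁻¹ • (⟨x, hx⟩ : f.domain)))) := by
        rw [f.map_neg, f.map_smul, IntermediateField.smul_def,
          IntermediateField.smul_def, smul_eq_mul, smul_eq_mul, IntermediateField.coe_inv]
        field_simp
        ring
      have hyx : y - ((-(s⁻¹ • (⟨x, hx⟩ : f.domain)) : f.domain) : Ω) ≠ 0 := fun h =>
        hy (by rw [sub_eq_zero.1 h]; exact (-(s⁻¹ • (⟨x, hx⟩ : f.domain))).2)
      rw [e2]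
      have h2 : r ≤ v (s : Ω) + v (y - ((-(s⁻¹ • (⟨x, hx⟩ : f.domain)) : f.domain) : Ω)) := by
        rw [← v.map_mul hs0 hyx, ← e1]
        refine hr ?_
        rw [e1]
        exact mul_ne_zero hs0 hyx
      exact ((RVal.ge_self (v := v) (s : Ω)).mul h1).mono h2

/-- Ingleton's theorem. -/
theorem exists_ext (hs : SphC v) (f : Ω →ₗ.[S] Ω) (hf : PN v f) :
    ∃ g : Ω →ₗ[S] Ω, (∀ x : f.domain, g x = f x) ∧ NL v g := by
  have hSc : ∀ c, c ⊆ {p : Ω →ₗ.[S] Ω | PN v p} → IsChain (· ≤ ·) c → ∀ y ∈ c,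
      ∃ ub ∈ {p : Ω →ₗ.[S] Ω | PN v p}, ∀ z ∈ c, z ≤ ub := by
    intro c hcs c_chain y hy
    have cne : c.Nonempty := ⟨y, hy⟩
    have hcd : DirectedOn (· ≤ ·) c := c_chain.directedOn
    refine ⟨LinearPMap.sSup c hcd, ?_, fun _ ↦ LinearPMap.le_sSup hcd⟩
    rintro ⟨x, hx⟩ r hxr
    have hdir : DirectedOn (· ≤ ·) (LinearPMap.domain '' c) :=
      directedOn_image.2 (hcd.mono LinearPMap.domain_mono.monotone)
    rcases (mem_sSup_of_directed (cne.image _) hdir).1 hx with ⟨_, ⟨f, hfc, rfl⟩, hfx⟩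
    have h1 : f ≤ LinearPMap.sSup c hcd := LinearPMap.le_sSup _ hfc
    have h2 := hcs hfc ⟨x, hfx⟩ r hxr
    have h3 : f ⟨x, hfx⟩ = LinearPMap.sSup c hcd ⟨x, hx⟩ := h1.2 rfl
    rwa [h3] at h2
  obtain ⟨q, hpq, hqs, hq⟩ := zorn_le_nonempty₀ {p : Ω →ₗ.[S] Ω | PN v p} hSc f hf
  have htop : q.domain = ⊤ := by
    by_contra hne
    obtain ⟨r, hqr, hr⟩ := ext_step hs hqs hne
    exact hqr.not_ge (hq hr hqr.le)
  refine ⟨q.toFun.comp (LinearMap.id.codRestrict q.domain fun x => htop ▸ trivial), ?_, ?_⟩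
  · exact fun x => (hpq.2 rfl).symm
  · exact fun x c hx => hqs ⟨x, htop ▸ trivial⟩ c hx

/-- Detection of a noise. -/
theorem exists_fun (hs : SphC v) (M : Submodule S Ω) {z : Ω}
    (hz : ∀ m ∈ M, z - m ≠ 0 ∧ v (z - m) < 0) :
    ∃ d : Ω →ₗ[S] Ω, NL v d ∧ (∀ m ∈ M, d m = 0) ∧ d z = 1 := by
  have hzM : z ∉ M := fun h => (hz z h).1 (sub_self z)
  set f0 : Ω →ₗ.[S] Ω := ⟨M, 0⟩ with hf0
  have hz0 : z ∉ f0.domain := hzM
  set f : Ω →ₗ.[S] Ω := f0.supSpanSingleton z 1 hz0 with hf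
  have hfm : ∀ (x : Ω) (hx : x ∈ f0.domain) (s : S) (hxs : x + s • z ∈ f.domain),
      f ⟨x + s • z, hxs⟩ = s := by
    intro x hx s hxs
    have h2 := LinearPMap.supSpanSingleton_apply_mk f0 z 1 hz0 x hx s
    have h1 : f0 ⟨x, hx⟩ = 0 := rfl
    have h4 : s • (1 : Ω) = (s : Ω) := by
      rw [IntermediateField.smul_def, smul_eq_mul, mul_one]
    rw [h1, zero_add] at h2
    exact h2.trans h4
  have hPN : PN v f := by
    rintro ⟨y, hy⟩ r hr
    rcases mem_sup.1 hy with ⟨x, hx, y', hy', rfl⟩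
    rcases mem_span_singleton.1 hy' with ⟨s, rfl⟩
    rw [hfm x hx s hy]
    simp only at hr
    intro h0
    have hs0 : s ≠ 0 := fun h => h0 (by rw [h]; rfl)
    have h1 := hz (-(s⁻¹ • x)) (M.neg_mem (M.smul_mem _ hx))
    have e1 : x + s • z = (s : Ω) * (z - (-(s⁻¹ • x))) := by
      rw [IntermediateField.smul_def, IntermediateField.smul_def, smul_eq_mul, smul_eq_mul,
        IntermediateField.coe_inv]
      field_simp
      ring
    have h2 := hr (by rw [e1]; exact mul_ne_zero h0 h1.1)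
    rw [e1, v.map_mul h0 h1.1] at h2
    linarith [h1.2]
  obtain ⟨g, hg, hgN⟩ := exists_ext hs f hPN
  have hle : f0.domain ≤ f.domain := LinearPMap.domain_mono.monotone (f0.left_le_sup _ _)
  refine ⟨g, hgN, fun m hm => ?_, ?_⟩
  · have hm' : m ∈ f.domain := hle hm
    have h1 := hg ⟨m, hm'⟩
    have h2 : m + (0 : S) • z ∈ f.domain := by rw [zero_smul, add_zero]; exact hm'
    have h3 := hfm m hm 0 h2
    have h4 : (⟨m + (0 : S) • z, h2⟩ : f.domain) = ⟨m, hm'⟩ := by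
      apply Subtype.ext
      simp
    rw [h4] at h3
    rw [show g m = f ⟨m, hm'⟩ from h1, h3]
    rfl
  · have h2 : (0 : Ω) + (1 : S) • z ∈ f.domain := by
      rw [one_smul, zero_add, hf, LinearPMap.domain_supSpanSingleton]
      exact mem_sup_right (mem_span_singleton_self z)
    have h3 := hfm 0 (Submodule.zero_mem _) 1 h2
    have h1 := hg ⟨_, h2⟩
    rw [h3] at h1
    have h5 : ((⟨(0 : Ω) + (1 : S) • z, h2⟩ : f.domain) : Ω) = z := by simp
    rw [h5] at h1
    rw [h1]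
    rfl

end Pool.Agent.TWCF
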