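import Pool.Agent.Lib.TWCF.Chain
import Pool.Agent.Lib.TWCY.Der

/-!
# The jets of a floor along a polynomial family, and their shape

`PolF v F T`: `T c`, `c ∈ k²`, isometric embeddings of `Ω`, `T 0 = id` on `F`, and `T c f - f` is a
uniform limit of polynomials in `c` with coefficients in `F`, for `f ∈ F` (the law of the family is not
used).
* `exists_jets`: the jets `Z g`, `g ∈ ℕ²`, of a limit `z` of `F` (modulo `O_0`): limits of the jets of
  the approximations of `z`;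
* `Jets.fin`: finite shape, if `a = e z + x P(z) + a₀` modulo null, with a derivation `D` of `F` of
  norm `≤ 0`, `D x` a unit;
* `Jets.shp`: the shape `Shp`.
-/

set_option autoImplicit false

open MvPolynomial

namespace Pool.Agent.TWCF

open Pool.Agent.H15JM (RVal)
open Pool.Agent.D2 (Ctx0)
open Pool.Agent.TWM
open Pool.Agent.TWS (IsoE SphC)
open Pool.Agent.TWLY
open Pool.Agent.TWCY

universe u

variable {k Ω : Type u} [Field k] [Field Ω] [Algebra k Ω] {v : RVal Ω}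
  {F : IntermediateField k Ω} {T : (Fin 2 → k) → Ω →ₐ[k] Ω} {z : Ω}

/-- A polynomial family of isometric embeddings on `F`. -/
structure PolF (v : RVal Ω) (F : IntermediateField k Ω) (T : (Fin 2 → k) → Ω →ₐ[k] Ω) : Prop where
  iso : ∀ c, IsoE v v (T c)
  zero : ∀ f ∈ F, T 0 f = f
  pol : ∀ f ∈ F, ∀ B : ℝ, ∃ q : MvPolynomial (Fin 2) Ω, (∀ g, coeff g q ∈ F) ∧
    constantCoeff q = 0 ∧ ∀ c, v.Ge B (T c f - f - eval (pt c) q)

/-- The jets `Z g` of `z`. -/
structure Jets (v : RVal Ω) (F : IntermediateField k Ω) (T : (Fin 2 → k) → Ω →ₐ[k] Ω) (z : Ω)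
    (Z : Ex → Ω) : Prop where
  lim : ∀ g, Lim v F 0 (Z g)
  bdd : ∃ B : ℝ, ∀ g, v.Ge (-B) (Z g)
  near : ∀ ε : ℝ, 0 < ε → ∀ θ ∈ F, v.Ge (-ε) (z - θ) → ∀ q : MvPolynomial (Fin 2) Ω,
    (∀ c, v.Ge 0 (T c θ - θ - eval (pt c) q)) → ∀ g, v.Ge (-ε) (Z g - coeff g q)

theorem ge_of_sub_eps {x : Ω} {r : ℝ} {Q : ℝ} (hQ : 0 < Q)
    (h : ∀ ε : ℝ, 0 < ε → v.Ge (r - Q * ε) x) : v.Ge r x := by
  intro h0
  by_contra hlt
  push Not at hlt
  have h1 := h ((r - v x) / (2 * Q)) (by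
    have : 0 < r - v x := by linarith
    positivity) h0
  have h2 : Q * ((r - v x) / (2 * Q)) = (r - v x) / 2 := by
    field_simp
  rw [h2] at h1
  linarith

/-- Two approximations have near jets. -/
theorem PolF.near_coeff [Infinite k] (hk : Ctx0 k v) (hT : PolF v F T) {θ θ' : Ω} {ε : ℝ}
    (hε : 0 < ε) (h : v.Ge (-ε) (θ - θ')) {q q' : MvPolynomial (Fin 2) Ω}
    (hq : ∀ c, v.Ge 0 (T c θ - θ - eval (pt c) q))
    (hq' : ∀ c, v.Ge 0 (T c θ' - θ' - eval (pt c) q')) (g : Ex) :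
    v.Ge (-ε) (coeff g q - coeff g q') := by
  rw [← coeff_sub]
  refine ge_coeff hk (fun c => ?_) g
  rw [map_sub]
  have e : eval (pt c) q - eval (pt c) q' = (T c (θ - θ') - (θ - θ')) -
      (T c θ - θ - eval (pt c) q) + (T c θ' - θ' - eval (pt c) q') := by
    rw [map_sub]
    ring
  rw [e]
  exact ((((hT.iso c).ge_iff.2 h).sub h).sub ((hq c).mono (by linarith))).add
    ((hq' c).mono (by linarith))

/-- **The jets exist.** -/
theorem exists_jets [Infinite k] (hk : Ctx0 k v) (hsp : SphC v) (hT : PolF v F T)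
    (hz : Lim v F 0 z) : ∃ Z : Ex → Ω, Jets v F T z Z := by
  classical
  have he : ∀ n : ℕ, (0 : ℝ) < 1 / (n + 1) := fun n => by positivity
  choose θ hθ hzθ using fun n : ℕ => Lim.neg_eps hz (he n)
  choose q hqF hq0 hq using fun n : ℕ => hT.pol (θ n) (hθ n) 0
  have hcau : ∀ (g : Ex) (n m : ℕ), n ≤ m → v.Ge (-(1 / ((n : ℝ) + 1))) (coeff g (q m) - coeff g (q n)) := by
    intro g n m hnm
    refine hT.near_coeff hk (he n) ?_ (hq m) (hq n) g
    have e : θ m - θ n = (z - θ n) - (z - θ m) := by ring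
    rw [e]
    refine (hzθ n).sub ((hzθ m).mono ?_)
    have h1 : (1 : ℝ) / (m + 1) ≤ 1 / (n + 1) := by
      apply one_div_le_one_div_of_le
      · positivity
      · have : (n : ℝ) ≤ m := by exact_mod_cast hnm
        linarith
    linarith
  choose Z hZ using fun g => hsp (fun n => coeff g (q n)) (fun n => -(1 / ((n : ℝ) + 1)))
    (fun n m hnm => hcau g n m hnm)
  have hnear : ∀ ε : ℝ, 0 < ε → ∀ θ' ∈ F, v.Ge (-ε) (z - θ') → ∀ q' : MvPolynomial (Fin 2) Ω,
      (∀ c, v.Ge 0 (T c θ' - θ' - eval (pt c) q')) → ∀ g, v.Ge (-ε) (Z g - coeff g q') := by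
    intro ε hε θ' hθ' hzθ' q' hq' g
    obtain ⟨n, hn⟩ : ∃ n : ℕ, (1 : ℝ) / (n + 1) ≤ ε := by
      obtain ⟨n, hn⟩ := exists_nat_one_div_lt hε
      exact ⟨n, hn.le⟩
    have e : Z g - coeff g q' = (Z g - coeff g (q n)) + (coeff g (q n) - coeff g q') := by ring
    rw [e]
    refine ((hZ g n).mono (by linarith)).add ?_
    refine hT.near_coeff hk hε ?_ (hq n) hq' g
    have e2 : θ n - θ' = (z - θ') - (z - θ n) := by ring
    rw [e2]
    exact hzθ'.sub ((hzθ n).mono (by linarith))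
  refine ⟨Z, ⟨fun g ε hε => ?_, ?_, hnear⟩⟩
  · obtain ⟨n, hn⟩ : ∃ n : ℕ, (1 : ℝ) / (n + 1) ≤ ε := by
      obtain ⟨n, hn⟩ := exists_nat_one_div_lt hε
      exact ⟨n, hn.le⟩
    exact ⟨coeff g (q n), hqF n g, (hZ g n).mono (by linarith)⟩
  · -- the bound
    obtain ⟨B, hB0, hB⟩ : ∃ B : ℝ, 0 ≤ B ∧ v.Ge (-B) (θ 0) := by
      refine ⟨max 0 (-v (θ 0)), le_max_left _ _, fun _ => ?_⟩
      have := le_max_right (0 : ℝ) (-v (θ 0))
      linarith
    have h1 : ∀ g, v.Ge (-B) (coeff g (q 0)) := fun g => by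
      refine ge_coeff hk (fun c => ?_) g
      have e : eval (pt c) (q 0) = (T c (θ 0) - θ 0) - (T c (θ 0) - θ 0 - eval (pt c) (q 0)) := by
        ring
      rw [e]
      exact (((hT.iso c).ge_iff.2 hB).sub hB).sub ((hq 0 c).mono (by linarith))
    refine ⟨max B 1, fun g => ?_⟩
    have e : Z g = (Z g - coeff g (q 0)) + coeff g (q 0) := by ring
    rw [e]
    refine ((hZ g 0).mono ?_).add ((h1 g).mono ?_)
    · have := le_max_right B 1
      simp only [Nat.cast_zero, zero_add, div_one]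
      linarith
    · have := le_max_left B 1
      linarith

/-- The jet at `0` is small. -/
theorem Jets.zero {Z : Ex → Ω} (h : Jets v F T z Z) (hT : PolF v F T) (hz : Lim v F 0 z) :
    v.Ge 0 (Z 0) := by
  refine ge_zero_of_eps fun ε hε => ?_
  obtain ⟨θ, hθ, h1⟩ := Lim.neg_eps hz hε
  obtain ⟨q, -, hq0, hq⟩ := hT.pol θ hθ 0
  have h2 := h.near ε hε θ hθ h1 q hq 0
  rw [← constantCoeff_eq, hq0, sub_zero] at h2
  exact h2

/-- **The displacement of `z`**, from the jets. -/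
theorem Jets.jet {Z : Ex → Ω} (hk : Ctx0 k v) (h : Jets v F T z Z) (hT : PolF v F T)
    (hz : Lim v F 0 z) {S : Finset Ex} (hS : ∀ g ∉ S, v.Ge 0 (Z g)) (c : Fin 2 → k) :
    v.Ge 0 (T c z - z - eval (pt c) (∑ g ∈ S, monomial g (Z g))) := by
  classical
  refine ge_zero_of_eps fun ε hε => ?_
  obtain ⟨θ, hθ, h1⟩ := Lim.neg_eps hz hε
  obtain ⟨q, -, -, hq⟩ := hT.pol θ hθ 0
  have h2 := h.near ε hε θ hθ h1 q hq
  have h3 : v.Ge (-ε) (eval (pt c) (q - ∑ g ∈ S, monomial g (Z g))) := by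
    refine ge_eval hk (fun g => ?_) c
    rw [coeff_sub, coeff_sum]
    simp only [coeff_monomial]
    by_cases hg : g ∈ S
    · rw [Finset.sum_ite_eq', if_pos hg]
      have := (h2 g).neg
      rwa [neg_sub] at this
    · rw [Finset.sum_ite_eq', if_neg hg, sub_zero]
      have e : coeff g q = Z g - (Z g - coeff g q) := by ring
      rw [e]
      exact ((hS g hg).mono (by linarith)).sub (h2 g)
  have e : T c z - z - eval (pt c) (∑ g ∈ S, monomial g (Z g)) =
      (T c (z - θ) - (z - θ)) + (T c θ - θ - eval (pt c) q) +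
      eval (pt c) (q - ∑ g ∈ S, monomial g (Z g)) := by
    rw [map_sub, map_sub]
    ring
  rw [e]
  exact ((((hT.iso c).ge_iff.2 h1).sub h1).add ((hq c).mono (by linarith))).add h3

end Pool.Agent.TWCF
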