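import Pool.Agent.Lib.TWCF.Dvd

/-!
# The case `e ≠ 0`: exponents divisible by `p`

* `Jets.pt_rel`: the relation between the jets, for all indices;
* `Jets.small`: if `e ≠ 0`, the jets `Z g` with `p ∤ g i` for some `i` are in `O_0`, if the orbit
  polynomial of `a₀` has this property;
* `Jets.orb_small`: if `e = 0`, the orbit polynomial of `a₀` has this property;
* `tie_shift`: the tie for `z - φ`, `φ = - a₀ / e`, has the free term `x P(φ)`;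
* `FrU.exists_shp_e`: **the shape of `z - φ` over the plane, `e ≠ 0`**: exponents divisible by `p`.
-/

set_option autoImplicit false

open MvPolynomial

namespace Pool.Agent.TWCF

open Pool.Agent.H15JM (RVal)
open Pool.Agent.D2 (Ctx0)
open Pool.Agent.TWM
open Pool.Agent.TWS (IsoE SphC)
open Pool.Agent.TWLY (Ex PP mk mk_eta dg PP_add PP_sub PP_map exists_of_coeff_pow)
open Pool.Agent.TWCY
open Pool.Agent.TWRZ (Fam FrU Pk P0 Pl Att)

universe u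

variable {k Ω : Type u} [Field k] [Field Ω] [Algebra k Ω] {v : RVal Ω}
  {F : IntermediateField k Ω} {T : (Fin 2 → k) → Ω →ₐ[k] Ω} {z x a₀ : Ω} {e : k} {Z : Ex → Ω}
  {p : ℕ} {κ : ℕ → k} {t : ℕ} {A : MvPolynomial (Fin 2) Ω}

/-- Powers have only exponents divisible by `p`. -/
theorem coeff_pow_ndvd [hp : Fact p.Prime] [CharP Ω p] (q : MvPolynomial (Fin 2) Ω) {g : Ex}
    {i : Fin 2} (hg : ¬ p ∣ g i) {j : ℕ} (hj : j ≠ 0) : coeff g (q ^ p ^ j) = 0 := by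
  by_contra h
  obtain ⟨m, rfl, -⟩ := exists_of_coeff_pow (p := p) q j h
  exact hg (by
    rw [Finsupp.smul_apply, smul_eq_mul]
    exact (dvd_pow_self p hj).mul_right _)

theorem coeff_PP_ndvd [hp : Fact p.Prime] [CharP Ω p] (q : MvPolynomial (Fin 2) Ω) {g : Ex}
    {i : Fin 2} (hg : ¬ p ∣ g i) : coeff g (PP p κ t q) = 0 := by
  unfold PP
  rw [coeff_sum]
  refine Finset.sum_eq_zero fun j _ => ?_
  rw [IsScalarTower.algebraMap_apply k Ω (MvPolynomial (Fin 2) Ω), algebraMap_eq, coeff_C_mul,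
    coeff_pow_ndvd q hg j.succ_ne_zero, mul_zero]

/-- **The relation between the jets**, at an approximation. -/
theorem PolF.pt_rel [Infinite k] [hp : Fact p.Prime] [CharP Ω p] (hk : Ctx0 k v)
    (hT : PolF v F T) (hTx : ∀ c : Fin 2 → k, T c x = x)
    (hA : ∀ c, v.Ge 0 (T c a₀ - a₀ - eval (pt c) A)) {ε : ℝ} (hε : 0 < ε) {θ b : Ω} (hθ : θ ∈ F)
    (hb : b ∈ F) (hrel : v.Ge (-ε) (algebraMap k Ω e * θ + x * PP p κ t θ + a₀ - b ^ p)) :
    ∃ q s : MvPolynomial (Fin 2) Ω, (∀ c, v.Ge 0 (T c θ - θ - eval (pt c) q)) ∧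
      ∀ g, v.Ge (-ε) (algebraMap k Ω e * coeff g q + x * coeff g (PP p κ t q) + coeff g A -
        coeff g (s ^ p)) := by
  obtain ⟨M, hM0, hM⟩ : ∃ M : ℝ, 0 ≤ M ∧ v.Ge (-M) x := by
    refine ⟨max 0 (-v x), le_max_left _ _, fun _ => ?_⟩
    have := le_max_right (0 : ℝ) (-v x)
    linarith
  obtain ⟨q, hqF, -, hq⟩ := hT.pol θ hθ (1 + M)
  obtain ⟨s, hsF, -, hs⟩ := hT.pol b hb 1
  refine ⟨q, s, fun c => (hq c).mono (by linarith), fun g => ?_⟩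
  have e0 : algebraMap k Ω e * coeff g q + x * coeff g (PP p κ t q) + coeff g A -
      coeff g (s ^ p) = coeff g (C (algebraMap k Ω e) * q + C x * PP p κ t q + A - s ^ p) := by
    rw [coeff_sub, coeff_add, coeff_add, coeff_C_mul, coeff_C_mul]
  rw [e0]
  refine ge_coeff hk (fun c => ?_) g
  rw [map_sub, map_add, map_add, map_mul, map_mul, map_pow, eval_C, eval_C, eval_PP]
  obtain ⟨d, hd⟩ : ∃ d, d = T c θ - θ - eval (pt c) q := ⟨_, rfl⟩
  obtain ⟨d', hd'⟩ : ∃ d', d' = T c b - b - eval (pt c) s := ⟨_, rfl⟩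
  have hd1 : v.Ge (1 + M) d := by
    rw [hd]
    exact hq c
  have hd2 : v.Ge 1 d' := by
    rw [hd']
    exact hs c
  have e1 : algebraMap k Ω e * eval (pt c) q + x * PP p κ t (eval (pt c) q) +
      eval (pt c) A - eval (pt c) s ^ p =
      (T c (algebraMap k Ω e * θ + x * PP p κ t θ + a₀ - b ^ p) -
        (algebraMap k Ω e * θ + x * PP p κ t θ + a₀ - b ^ p)) -
      (algebraMap k Ω e * d + x * PP p κ t d) - (T c a₀ - a₀ - eval (pt c) A) + d' ^ p := by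
    have hq' : eval (pt c) q = T c θ - θ - d := by rw [hd]; ring
    have hs' : eval (pt c) s = T c b - b - d' := by rw [hd']; ring
    rw [hq', hs', PP_sub, PP_sub, sub_pow_char, sub_pow_char, map_sub, map_add, map_add, map_mul,
      map_mul, map_pow, AlgHom.commutes, hTx, PP_map]
    ring
  rw [e1]
  have hP : v.Ge (1 + M) (PP p κ t d) := by
    unfold PP
    refine RVal.Ge.sum _ _ fun i _ => ?_
    have h2 := (hk.ge (κ i)).mul (TWM.ge_pow hd1 (p ^ (i + 1)))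
    refine h2.mono ?_
    have h3 : (1 : ℝ) ≤ ((p ^ (i + 1) : ℕ) : ℝ) := by
      exact_mod_cast Nat.one_le_iff_ne_zero.2 (pow_ne_zero _ hp.out.ne_zero)
    nlinarith
  refine ((((hT.iso c).ge_iff.2 hrel).sub hrel).sub ?_ |>.sub ((hA c).mono (by linarith))).add ?_
  · refine RVal.Ge.add ?_ ?_
    · have h2 := (hk.ge e).mul hd1
      exact h2.mono (by linarith)
    · have h2 := hM.mul hP
      exact h2.mono (by linarith)
  · have h2 := TWM.ge_pow hd2 p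
    refine h2.mono ?_
    have : (0 : ℝ) ≤ p := Nat.cast_nonneg p
    linarith

/-- **Small jets**, `e ≠ 0`. -/
theorem Jets.small [Infinite k] [hp : Fact p.Prime] [CharP Ω p] (hk : Ctx0 k v)
    (h : Jets v F T z Z) (hT : PolF v F T) (hTx : ∀ c : Fin 2 → k, T c x = x)
    (hA : ∀ c, v.Ge 0 (T c a₀ - a₀ - eval (pt c) A)) (he : e ≠ 0)
    (tie : ∀ ε : ℝ, 0 < ε → ∃ θ ∈ F, v.Ge (-ε) (z - θ) ∧
      ∃ b ∈ F, v.Ge (-ε) (algebraMap k Ω e * θ + x * PP p κ t θ + a₀ - b ^ p))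
    {g : Ex} {i : Fin 2} (hg : ¬ p ∣ g i) (hAg : v.Ge 0 (coeff g A)) : v.Ge 0 (Z g) := by
  refine ge_zero_of_eps fun ε hε => ?_
  obtain ⟨θ, hθ, hzθ, b, hb, hrel⟩ := tie ε hε
  obtain ⟨q, s, hq, h1⟩ := hT.pt_rel hk hTx hA hε hθ hb hrel
  have h2 := h1 g
  have h3 : coeff g (s ^ p) = 0 := by
    have := coeff_pow_ndvd (p := p) s hg one_ne_zero
    rwa [pow_one] at this
  rw [coeff_PP_ndvd q hg, h3, mul_zero, add_zero, sub_zero] at h2
  have h4 := h2.sub (hAg.mono (by linarith : -ε ≤ 0))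
  rw [add_sub_cancel_right] at h4
  have h5 : v.Ge (-ε) (coeff g q) :=
    ge_of_unit_mul ((map_ne_zero _).2 he) (hk.triv _ he) h4
  have e1 : Z g = (Z g - coeff g q) + coeff g q := by ring
  rw [e1]
  exact (h.near ε hε θ hθ hzθ q hq g).add h5

/-- **Small coefficients of the orbit of `a₀`**, `e = 0`. -/
theorem PolF.orb_small [Infinite k] [hp : Fact p.Prime] [CharP Ω p] (hk : Ctx0 k v)
    (hT : PolF v F T) (hTx : ∀ c : Fin 2 → k, T c x = x)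
    (hA : ∀ c, v.Ge 0 (T c a₀ - a₀ - eval (pt c) A)) (he : e = 0)
    (tie : ∀ ε : ℝ, 0 < ε → ∃ θ ∈ F, v.Ge (-ε) (z - θ) ∧
      ∃ b ∈ F, v.Ge (-ε) (algebraMap k Ω e * θ + x * PP p κ t θ + a₀ - b ^ p))
    {g : Ex} {i : Fin 2} (hg : ¬ p ∣ g i) : v.Ge 0 (coeff g A) := by
  refine ge_zero_of_eps fun ε hε => ?_
  obtain ⟨θ, hθ, hzθ, b, hb, hrel⟩ := tie ε hε
  obtain ⟨q, s, hq, h1⟩ := hT.pt_rel hk hTx hA hε hθ hb hrel
  have h2 := h1 g
  have h3 : coeff g (s ^ p) = 0 := by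
    have := coeff_pow_ndvd (p := p) s hg one_ne_zero
    rwa [pow_one] at this
  rwa [coeff_PP_ndvd q hg, h3, he, map_zero, zero_mul, mul_zero, zero_add, zero_add,
    sub_zero] at h2

/-- **The shift**: the tie for `z - φ`, `φ = - a₀ / e`. -/
theorem tie_shift [hp : Fact p.Prime] [CharP Ω p] (ha : a₀ ∈ F) (he : e ≠ 0)
    (tie : ∀ ε : ℝ, 0 < ε → ∃ θ ∈ F, v.Ge (-ε) (z - θ) ∧
      ∃ b ∈ F, v.Ge (-ε) (algebraMap k Ω e * θ + x * PP p κ t θ + a₀ - b ^ p)) :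
    ∃ φ ∈ F, algebraMap k Ω e * φ = -a₀ ∧
      ∀ ε : ℝ, 0 < ε → ∃ θ ∈ F, v.Ge (-ε) (z - φ - θ) ∧
        ∃ b ∈ F, v.Ge (-ε) (algebraMap k Ω e * θ + x * PP p κ t θ + x * PP p κ t φ - b ^ p) := by
  have hek : algebraMap k Ω e ≠ 0 := (map_ne_zero _).2 he
  refine ⟨-((algebraMap k Ω e)⁻¹ * a₀),
    neg_mem (mul_mem (inv_mem (F.algebraMap_mem e)) ha), ?_, fun ε hε => ?_⟩
  · rw [mul_neg, mul_inv_cancel_left₀ hek]
  · obtain ⟨θ, hθ, hzθ, b, hb, hrel⟩ := tie ε hε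
    obtain ⟨φ, hφ⟩ : ∃ φ, φ = -((algebraMap k Ω e)⁻¹ * a₀) := ⟨_, rfl⟩
    have hφF : φ ∈ F := by
      rw [hφ]
      exact neg_mem (mul_mem (inv_mem (F.algebraMap_mem e)) ha)
    have hφe : algebraMap k Ω e * φ = -a₀ := by
      rw [hφ, mul_neg, mul_inv_cancel_left₀ hek]
    rw [← hφ]
    refine ⟨θ - φ, sub_mem hθ hφF, ?_, b, hb, ?_⟩
    · have e1 : z - φ - (θ - φ) = z - θ := by ring
      rwa [e1]
    · have e1 : algebraMap k Ω e * (θ - φ) + x * PP p κ t (θ - φ) + x * PP p κ t φ - b ^ p =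
          algebraMap k Ω e * θ + x * PP p κ t θ + a₀ - b ^ p := by
        rw [PP_sub, mul_sub, hφe]
        ring
      rwa [e1]

variable {W : IntermediateField k Ω} {w u : Ω} {T₁ : k → Ω →ₐ[k] Ω} {U : k → Ω} {δ : k → k → k}
  {T₂ : k × k → Ω →ₐ[k] Ω}

/-- **The shape of `z - φ` over the plane**, `e ≠ 0`, `e φ = - a₀`: the exponents are divisible by
`p`, and the tie has the free term `x P(φ)`. -/
theorem FrU.exists_shp_e [IsAlgClosed Ω] [Infinite k] [hp : Fact p.Prime] [CharP Ω p]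
    (hk : Ctx0 k v) (hsp : SphC v) (h : FrU v W w u T₁ U δ T₂)
    (hz : Lim v (cadj v (cadj v W w) u) 0 z) {D : Ω → Ω} (hD : Drv v (cadj v (cadj v W w) u) D)
    (hx : x ∈ W) (hDx : Rs v (D x) (1 : k))
    (ha : a₀ ∈ cadj v (cadj v W w) u) (hκ : κ t ≠ 0) (he : e ≠ 0)
    (tie : ∀ ε : ℝ, 0 < ε → ∃ θ ∈ cadj v (cadj v W w) u, v.Ge (-ε) (z - θ) ∧
      ∃ b ∈ cadj v (cadj v W w) u,
        v.Ge (-ε) (algebraMap k Ω e * θ + x * PP p κ t θ + a₀ - b ^ p)) :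
    ∃ φ ∈ cadj v (cadj v W w) u, algebraMap k Ω e * φ = -a₀ ∧
      (∀ ε : ℝ, 0 < ε → ∃ θ ∈ cadj v (cadj v W w) u, v.Ge (-ε) (z - φ - θ) ∧
        ∃ b ∈ cadj v (cadj v W w) u,
          v.Ge (-ε) (algebraMap k Ω e * θ + x * PP p κ t θ + x * PP p κ t φ - b ^ p)) ∧
      ∃ (Z : Ex → Ω) (m : ℕ) (n : Fin m → Ω) (N : Fin m → MvPolynomial (Fin 2) k)
        (f : MvPolynomial (Fin 2) Ω) (b : Fin m → Ex),
        Jets v (cadj v (cadj v W w) u) (TF T₂) (z - φ) Z ∧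
        Shp v (cadj v (cadj v W w) u) (TF T₂) (z - φ) n N f b ∧
        (∀ j, n j = Z (b j)) ∧ (∀ g, v.Ge 0 (Z g) → coeff g f = 0 ∧ ∀ j, coeff g (N j) = 0) ∧
        (∀ g i, ¬ p ∣ g i → v.Ge 0 (Z g)) ∧
        ∀ g i, ¬ p ∣ g i → coeff g f = 0 ∧ ∀ j, coeff g (N j) = 0 := by
  obtain ⟨φ, hφ, hφe, tie'⟩ := tie_shift ha he tie
  have hT := FrU.polF h
  have hxF : x ∈ cadj v (cadj v W w) u := le_cadj _ _ _ (le_cadj _ _ _ hx)
  have hTx : ∀ c : Fin 2 → k, TF T₂ c x = x := fun c => by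
    change T₂ (c 0, c 1) x = x
    rw [h.res _ x (le_cadj _ _ _ hx), h.fixW _ x hx]
  have hz' : Lim v (cadj v (cadj v W w) u) 0 (z - φ) := fun ε hε => by
    obtain ⟨f, hf, h1⟩ := hz ε hε
    exact ⟨f - φ, sub_mem hf hφ, by rwa [sub_sub_sub_cancel_right]⟩
  obtain ⟨Z, m, n, N, f, b, hZ, hS, hn, hc⟩ := FrU.exists_shp hk hsp h hz' hD hx hDx
    (mul_mem hxF (PP_mem hφ)) hκ tie'
  -- the orbit of `x P(φ)`
  obtain ⟨M, hM0, hM⟩ : ∃ M : ℝ, 0 ≤ M ∧ v.Ge (-M) x := by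
    refine ⟨max 0 (-v x), le_max_left _ _, fun _ => ?_⟩
    have := le_max_right (0 : ℝ) (-v x)
    linarith
  obtain ⟨q, hqF, -, hq⟩ := hT.pol φ hφ M
  have hA : ∀ c, v.Ge 0 (TF T₂ c (x * PP p κ t φ) - x * PP p κ t φ -
      eval (pt c) (C x * PP p κ t q)) := by
    intro c
    obtain ⟨d, hd⟩ : ∃ d, d = TF T₂ c φ - φ - eval (pt c) q := ⟨_, rfl⟩
    have hd1 : v.Ge M d := by
      rw [hd]
      exact hq c
    have e1 : TF T₂ c (x * PP p κ t φ) - x * PP p κ t φ - eval (pt c) (C x * PP p κ t q) =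
        x * PP p κ t d := by
      rw [hd, PP_sub, PP_sub, map_mul, hTx, PP_map, map_mul, eval_C, eval_PP]
      ring
    rw [e1]
    have hP : v.Ge M (PP p κ t d) := by
      unfold PP
      refine RVal.Ge.sum _ _ fun i _ => ?_
      have h2 := (hk.ge (κ i)).mul (TWM.ge_pow hd1 (p ^ (i + 1)))
      refine h2.mono ?_
      have h3 : (1 : ℝ) ≤ ((p ^ (i + 1) : ℕ) : ℝ) := by
        exact_mod_cast Nat.one_le_iff_ne_zero.2 (pow_ne_zero _ hp.out.ne_zero)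
      nlinarith
    have h2 := hM.mul hP
    rwa [neg_add_cancel] at h2
  have hsm : ∀ (g : Ex) (i : Fin 2), ¬ p ∣ g i → v.Ge 0 (Z g) := fun g i hg =>
    hZ.small hk hT hTx hA he tie' hg (by
      rw [coeff_C_mul, coeff_PP_ndvd q hg, mul_zero]
      exact RVal.Ge.zero)
  exact ⟨φ, hφ, hφe, tie', Z, m, n, N, f, b, hZ, hS, hn, hc, hsm,
    fun g i hg => hc g (hsm g i hg)⟩

end Pool.Agent.TWCF
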