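import Pool.Agent.Lib.TWCF.Fin
import Pool.Agent.Lib.TWCY.ShpE
import Pool.Agent.Lib.TWRZ.Exu

/-!
# The shape of the third floor over the frame `FrU`

* `Jets.exists_shp`: the structure `Shp` for a polynomial family, from finitely many jets of positive
  size;
* `FrU.polF`: the group of the frame is a polynomial family on `F = cl C(u)`;
* `FrU.exists_shp`: **the shape of `z` over the plane**, if `a = e z + x P(z) + a₀` modulo null.
-/

set_option autoImplicit false

open MvPolynomial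

namespace Pool.Agent.TWCF

open Pool.Agent.H15JM (RVal)
open Pool.Agent.D2 (Ctx0)
open Pool.Agent.TWM
open Pool.Agent.TWS (IsoE SphC)
open Pool.Agent.TWLY (Ex PP mk mk_eta dg)
open Pool.Agent.TWCY
open Pool.Agent.TWCT (eq_on_cadj)
open Pool.Agent.TWRZ (isoE_id)
open Pool.Agent.TWRZ (Fam FrU Pk P0 Pl Att)

universe u

variable {k Ω : Type u} [Field k] [Field Ω] [Algebra k Ω] {v : RVal Ω}
  {F : IntermediateField k Ω} {T : (Fin 2 → k) → Ω →ₐ[k] Ω} {z : Ω} {Z : Ex → Ω}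

/-- **The shape, from the jets.** -/
theorem Jets.exists_shp (hk : Ctx0 k v) (hT : PolF v F T) (hz : Lim v F 0 z)
    (h : Jets v F T z Z) {S : Finset Ex} (hS : ∀ g ∉ S, v.Ge 0 (Z g)) :
    ∃ (m : ℕ) (n : Fin m → Ω) (N : Fin m → MvPolynomial (Fin 2) k)
      (f : MvPolynomial (Fin 2) Ω) (b : Fin m → Ex), Shp v F T z n N f b ∧
      (∀ j, n j = Z (b j)) ∧ ∀ g, v.Ge 0 (Z g) → coeff g f = 0 ∧ ∀ j, coeff g (N j) = 0 := by
  classical
  obtain ⟨S', hS'⟩ : ∃ S' : Finset Ex, S' = S.filter fun g => g ≠ 0 ∧ ¬ v.Ge 0 (Z g) := ⟨_, rfl⟩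
  have hmem : ∀ g, g ∈ S' ↔ g ≠ 0 ∧ ¬ v.Ge 0 (Z g) := by
    intro g
    rw [hS', Finset.mem_filter]
    refine ⟨fun h => h.2, fun h => ⟨?_, h⟩⟩
    by_contra h1
    exact h.2 (hS g h1)
  obtain ⟨m, b, cc, ff, hbS, hind, hF, hout, hin, hb⟩ := exists_basis (F := F) hk S' Z
  obtain ⟨N, hNd⟩ : ∃ N : Fin m → MvPolynomial (Fin 2) k,
      N = fun j => ∑ g ∈ S', monomial g (cc g j) := ⟨_, rfl⟩
  obtain ⟨f, hfd⟩ : ∃ f : MvPolynomial (Fin 2) Ω, f = ∑ g ∈ S', monomial g (ff g) := ⟨_, rfl⟩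
  have hN : ∀ g j, coeff g (N j) = cc g j := by
    intro g j
    rw [hNd]
    change coeff g (∑ g ∈ S', monomial g (cc g j)) = cc g j
    rw [coeff_sum]
    simp_rw [coeff_monomial]
    rw [Finset.sum_ite_eq']
    split_ifs with h
    · rfl
    · rw [(hout g h).1]; rfl
  have hf : ∀ g, coeff g f = ff g := by
    intro g
    rw [hfd, coeff_sum]
    simp_rw [coeff_monomial]
    rw [Finset.sum_ite_eq']
    split_ifs with h
    · rfl
    · rw [(hout g h).2]
  have h0S : (0 : Ex) ∉ S' := fun h => ((hmem 0).1 h).1 rfl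
  refine ⟨m, fun j => Z (b j), N, f, b, ⟨hz, fun j => h.lim _, hind, fun g => ?_, fun j => ?_, ?_,
    fun i j => ?_, fun j => ?_, fun c => ?_⟩, fun j => rfl, fun g hg => ?_⟩
  · rw [hf]; exact hF g
  · change coeff 0 (N j) = 0
    rw [hN, (hout 0 h0S).1]; rfl
  · change coeff 0 f = 0
    rw [hf, (hout 0 h0S).2]
  · rw [hN, (hb i j).1]
  · rw [hf, (hb j j).2]
  · have h1 := h.jet hk hT hz hS c
    have h2 : v.Ge 0 (eval (pt c) (∑ g ∈ S, monomial g (Z g) - uu (fun j => Z (b j)) N f)) := by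
      refine ge_eval hk (fun g => ?_) c
      rw [coeff_sub, coeff_uu, coeff_sum]
      simp_rw [hN, coeff_monomial]
      rw [hf, Finset.sum_ite_eq']
      by_cases hgS : g ∈ S'
      · have hgS' : g ∈ S := by
          by_contra h3
          exact ((hmem g).1 hgS).2 (hS g h3)
        rw [if_pos hgS']
        have e : Z g - (∑ j, algebraMap k Ω (cc g j) * Z (b j) + ff g) =
            Z g - ∑ j, algebraMap k Ω (cc g j) * Z (b j) - ff g := by ring
        rw [e]
        exact hin g hgS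
      · rw [(hout g hgS).1, (hout g hgS).2]
        simp only [Pi.zero_apply, map_zero, zero_mul, Finset.sum_const_zero, add_zero, sub_zero]
        by_cases hg0 : g = 0
        · subst hg0
          split_ifs
          · exact h.zero hT hz
          · exact RVal.Ge.zero
        · split_ifs
          · by_contra hcon
            exact hgS ((hmem g).2 ⟨hg0, hcon⟩)
          · exact RVal.Ge.zero
    have e : T c z - z - eval (pt c) (uu (fun j => Z (b j)) N f) =
        (T c z - z - eval (pt c) (∑ g ∈ S, monomial g (Z g))) +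
          eval (pt c) (∑ g ∈ S, monomial g (Z g) - uu (fun j => Z (b j)) N f) := by
      rw [map_sub]
      ring
    rw [e]
    exact h1.add h2
  · have hgS : g ∉ S' := fun h => ((hmem g).1 h).2 hg
    refine ⟨by rw [hf, (hout g hgS).2], fun j => ?_⟩
    rw [hN, (hout g hgS).1]; rfl

/-! ### The frame -/

/-- The polynomial functions on the plane are polynomials in two variables. -/
theorem exists_mv {φ : k × k → k} (hφ : φ ∈ TWRZ.PP (Pk k) (Pk k)) :
    ∃ P : MvPolynomial (Fin 2) k, ∀ c : Fin 2 → k, φ (c 0, c 1) = eval c P := by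
  obtain ⟨ι, hι, φ, ψ, h1, h2, h3⟩ := hφ
  choose F hF using h1
  choose G hG using h2
  refine ⟨∑ i, Polynomial.aeval (X 0) (F i) * Polynomial.aeval (X 1) (G i), fun c => ?_⟩
  rw [h3, map_sum]
  refine Finset.sum_congr rfl fun i _ => ?_
  have hev : ∀ (Q : Polynomial k) (j : Fin 2),
      eval c (Polynomial.aeval (X j : MvPolynomial (Fin 2) k) Q) = Q.eval (c j) := by
    intro Q j
    rw [← coe_aeval_eq_eval, RingHom.coe_coe, ← Polynomial.aeval_algHom_apply, aeval_X,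
      Polynomial.coe_aeval_eq_eval]
  rw [hF, hG, map_mul, hev, hev]

variable {W : IntermediateField k Ω} {w u : Ω} {T₁ : k → Ω →ₐ[k] Ω} {U : k → Ω} {δ : k → k → k}
  {T₂ : k × k → Ω →ₐ[k] Ω}

/-- The group of the frame, over `k²`. -/
def TF (T₂ : k × k → Ω →ₐ[k] Ω) (c : Fin 2 → k) : Ω →ₐ[k] Ω := T₂ (c 0, c 1)

/-- **The group of the frame is a polynomial family.** -/
theorem polF_of_fam (hid : ∀ f ∈ F, T₂ (0, 0) f = f)
    (h : Fam v F (TWRZ.PP (Pk k) (Pk k)) T₂) : PolF v F (TF T₂) where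
  iso c := h.iso _
  zero f hf := hid f hf
  pol f hf B := by
    classical
    obtain ⟨g₀, ⟨ι, hι, φ, c, h1, h2, h3⟩, h4⟩ := h.pol f hf B
    choose P hP using fun i => exists_mv (h1 i)
    obtain ⟨q, hq⟩ : ∃ q : MvPolynomial (Fin 2) Ω,
        q = ∑ i, C (c i) * MvPolynomial.map (algebraMap k Ω) (P i) := ⟨_, rfl⟩
    have hqe : ∀ s : Fin 2 → k, eval (pt s) q = g₀ (s 0, s 1) := by
      intro s
      rw [h3, hq, map_sum]
      refine Finset.sum_congr rfl fun i _ => ?_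
      rw [map_mul, eval_C, eval_pt_map, hP, mul_comm]
    have hqF : ∀ g, coeff g q ∈ F := by
      intro g
      rw [hq, coeff_sum]
      refine sum_mem fun i _ => ?_
      rw [coeff_C_mul, coeff_map]
      exact mul_mem (h2 i) (F.algebraMap_mem _)
    have hp0 : pt (Ω := Ω) (0 : Fin 2 → k) = 0 := by
      funext i
      simp [pt]
    have h0 : v.Ge B (f - coeff 0 q) := by
      have h5 := h4 (0, 0)
      have h6 := hqe 0
      rw [hp0, eval_zero] at h6
      simp only [Pi.zero_apply] at h6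
      rw [← h6] at h5
      change v.Ge B (T₂ (0, 0) f - coeff 0 q) at h5
      rwa [hid f hf] at h5
    refine ⟨q - C (coeff 0 q), fun g => ?_, ?_, fun s => ?_⟩
    · rw [coeff_sub, coeff_C]
      split_ifs
      · exact sub_mem (hqF g) (hqF 0)
      · exact sub_mem (hqF g) (zero_mem _)
    · rw [map_sub, constantCoeff_C]
      exact sub_self _
    · have e : TF T₂ s f - f - eval (pt s) (q - C (coeff 0 q)) =
          (T₂ (s 0, s 1) f - g₀ (s 0, s 1)) - (f - coeff 0 q) := by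
        rw [map_sub, eval_C, hqe]
        change T₂ (s 0, s 1) f - f - _ = _
        ring
      rw [e]
      exact (h4 _).sub h0

theorem FrU.id2 [IsAlgClosed Ω] (h : FrU v W w u T₁ U δ T₂) :
    ∀ f ∈ cadj v (cadj v W w) u, T₂ (0, 0) f = f := fun f hf => by
  exact eq_on_cadj (h.fam.iso (0, 0)) isoE_id (A := cadj v W w) (z := u)
    (fun a ha => by
      rw [h.res _ a ha]
      exact h.id0 a ha) (by
      rw [h.Tu, h.U0, map_zero, add_zero, add_zero]
      rfl) f hf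

theorem FrU.polF [IsAlgClosed Ω] (h : FrU v W w u T₁ U δ T₂) :
    PolF v (cadj v (cadj v W w) u) (TF T₂) := polF_of_fam (FrU.id2 h) h.fam

/-- **The shape of `z` over the plane.** -/
theorem FrU.exists_shp [IsAlgClosed Ω] [Infinite k] {p : ℕ} [hp : Fact p.Prime] [CharP Ω p]
    (hk : Ctx0 k v) (hsp : SphC v) (h : FrU v W w u T₁ U δ T₂)
    (hz : Lim v (cadj v (cadj v W w) u) 0 z) {D : Ω → Ω} (hD : Drv v (cadj v (cadj v W w) u) D)
    {x a₀ : Ω} {e : k} {κ : ℕ → k} {t : ℕ} (hx : x ∈ W) (hDx : Rs v (D x) (1 : k))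
    (ha : a₀ ∈ cadj v (cadj v W w) u) (hκ : κ t ≠ 0)
    (tie : ∀ ε : ℝ, 0 < ε → ∃ θ ∈ cadj v (cadj v W w) u, v.Ge (-ε) (z - θ) ∧
      ∃ b ∈ cadj v (cadj v W w) u,
        v.Ge (-ε) (algebraMap k Ω e * θ + x * PP p κ t θ + a₀ - b ^ p)) :
    ∃ (Z : Ex → Ω) (m : ℕ) (n : Fin m → Ω) (N : Fin m → MvPolynomial (Fin 2) k)
      (f : MvPolynomial (Fin 2) Ω) (b : Fin m → Ex),
      Jets v (cadj v (cadj v W w) u) (TF T₂) z Z ∧
      Shp v (cadj v (cadj v W w) u) (TF T₂) z n N f b ∧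
      (∀ j, n j = Z (b j)) ∧ ∀ g, v.Ge 0 (Z g) → coeff g f = 0 ∧ ∀ j, coeff g (N j) = 0 := by
  have hT := FrU.polF h
  obtain ⟨Z, hZ⟩ := exists_jets hk hsp hT hz
  have hxF : x ∈ cadj v (cadj v W w) u := le_cadj _ _ _ (le_cadj _ _ _ hx)
  have hTx : ∀ c : Fin 2 → k, TF T₂ c x = x := fun c => by
    change T₂ (c 0, c 1) x = x
    rw [h.res _ x (le_cadj _ _ _ hx), h.fixW _ x hx]
  have hD0 : D x ≠ 0 := by
    intro h0
    rw [h0] at hDx
    exact one_ne_zero (Rs.unique hk hDx Rs.zero)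
  have hDv : v (D x) = 0 := by
    have h1 : v.Ge 0 (D x) := hDx.ge hk
    refine le_antisymm ?_ (h1 hD0)
    by_contra h2
    push Not at h2
    exact one_ne_zero (Rs.unique hk hDx (rs_zero_iff.2 fun _ => h2))
  obtain ⟨A, hAF, -, hA⟩ := hT.pol a₀ ha 0
  obtain ⟨S, hS⟩ := hZ.fin hk hT hD hxF hTx hD0 hDv ha hAF hA hκ tie
  obtain ⟨m, n, N, f, b, h1, h2, h3⟩ := hZ.exists_shp hk hT hz hS
  exact ⟨Z, m, n, N, f, b, hZ, h1, h2, h3⟩

end Pool.Agent.TWCF
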