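import Pool.Agent.Lib.TWCF.HB
import Pool.Agent.Lib.TWCY.Der

/-!
# Row B, frame: jets and ties

`T h`, `h ∈ k²`, are isometries of `Ω`, `T h (T g f) = T (h·g) f` on `E`; the law is given by the
polynomials `m h i ∈ k[g]`: `(h·g) i = m h i (g)`. `Z ∈ Ω[s,c]` are the jets of a limit `z` of `E`:
`T_h z - z - Z(h) ∈ O_0`.
* `ge_jet`: `T_h Z + Z(h) - Z(h·g)` has coefficients in `O_0`;
* `tie_ge_pt`, `tie_ge`: `De Z + D x · P(Z) + dA` has coefficients in `O_0`;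
* `om_eq`: `T_h dA + dA(h) - dA(h·g)` in terms of `T_h D - D T_h`; `om_zero`: it is `0` if
  `D T_h = T_h D` on `T_g a_0 - a_0`;
* `tie_real`: the tie at a displacement.
-/

set_option autoImplicit false

open MvPolynomial

namespace Pool.Agent.TWCF

open Pool.Agent.H15JM (RVal)
open Pool.Agent.LU1 (VPos)
open Pool.Agent.D2 (Ctx0)
open Pool.Agent.TWM
open Pool.Agent.TWS (IsoE SphC)
open Pool.Agent.TWLY
open Pool.Agent.TWCY

universe u

variable {k Ω : Type u} [Field k] [Field Ω] [Algebra k Ω] {v : RVal Ω}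
  {E F : IntermediateField k Ω}

/-- the point `h·g` -/
noncomputable def mul (m : (Fin 2 → k) → Fin 2 → MvPolynomial (Fin 2) k) (h g : Fin 2 → k) : Fin 2 → k :=
  fun i => eval g (m h i)

/-- `Z(h·g)` as a polynomial in `g` -/
noncomputable def lt (m : (Fin 2 → k) → Fin 2 → MvPolynomial (Fin 2) k) (h : Fin 2 → k)
    (Z : MvPolynomial (Fin 2) Ω) : MvPolynomial (Fin 2) Ω :=
  bind₁ (fun i => MvPolynomial.map (algebraMap k Ω) (m h i)) Z

theorem eval_lt (m : (Fin 2 → k) → Fin 2 → MvPolynomial (Fin 2) k) (h g : Fin 2 → k)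
    (Z : MvPolynomial (Fin 2) Ω) : eval (pt g) (lt m h Z) = eval (pt (mul m h g)) Z := by
  unfold lt
  have h1 : eval (pt g) (bind₁ (fun i => MvPolynomial.map (algebraMap k Ω) (m h i)) Z) =
      eval (fun i => eval (pt g) (MvPolynomial.map (algebraMap k Ω) (m h i))) Z := by
    rw [← MvPolynomial.coe_aeval_eq_eval, ← MvPolynomial.coe_aeval_eq_eval]
    exact aeval_bind₁ _ _ _
  rw [h1]
  congr 2
  funext i
  rw [eval_pt_map]
  rfl

/-- `T_h Z` -/
noncomputable def mT (T : Ω →ₐ[k] Ω) (Z : MvPolynomial (Fin 2) Ω) : MvPolynomial (Fin 2) Ω :=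
  MvPolynomial.map (T : Ω →+* Ω) Z

theorem coeff_mT (T : Ω →ₐ[k] Ω) (Z : MvPolynomial (Fin 2) Ω) (g : Ex) :
    coeff g (mT T Z) = T (coeff g Z) := coeff_map _ _ _

theorem eval_mT (T : Ω →ₐ[k] Ω) (Z : MvPolynomial (Fin 2) Ω) (g : Fin 2 → k) :
    eval (pt g) (mT T Z) = T (eval (pt g) Z) := by
  have h3 : (⇑(T : Ω →+* Ω) ∘ pt g) = pt (Ω := Ω) g := by
    funext i
    exact T.commutes (g i)
  have h2 := eval₂_comp (T : Ω →+* Ω) (pt g) Z
  unfold mT
  rw [eval_map]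
  rw [h3] at h2
  exact h2.symm

section jets

variable {T : (Fin 2 → k) → Ω →ₐ[k] Ω} {m : (Fin 2 → k) → Fin 2 → MvPolynomial (Fin 2) k}

/-- Two isometries which agree on `E` agree at the limits of `E`, modulo `O_0`. -/
theorem ge_sub_of_lim {A B : Ω →ₐ[k] Ω} (hA : IsoE v v A) (hB : IsoE v v B)
    (h : ∀ f ∈ E, A f = B f) {z : Ω} (hz : Lim v E 0 z) : v.Ge 0 (A z - B z) := by
  refine ge_zero_of_eps fun ε hε => ?_
  obtain ⟨f, hf, h1⟩ := Lim.neg_eps hz hε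
  have e : A z - B z = A (z - f) - B (z - f) := by
    rw [map_sub, map_sub, h f hf]
    ring
  rw [e]
  exact (IsoE.ge' hA h1).sub (IsoE.ge' hB h1)

theorem IsoE.comp' {A B : Ω →ₐ[k] Ω} (hA : IsoE v v A) (hB : IsoE v v B) : IsoE v v (A.comp B) where
  val a ha := by
    have h1 : B a ≠ 0 := fun h => ha (B.toRingHom.injective (h.trans (_root_.map_zero B).symm))
    change v (A (B a)) = v a
    rw [hA.val _ h1, hB.val _ ha]

theorem ge_jet_pt (hiso : ∀ h, IsoE v v (T h))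
    (hlaw : ∀ h g, ∀ f ∈ E, T h (T g f) = T (mul m h g) f) {z : Ω} (hz : Lim v E 0 z)
    {Z : MvPolynomial (Fin 2) Ω} (hZ : ∀ h, v.Ge 0 (T h z - z - eval (pt h) Z))
    (h g : Fin 2 → k) :
    v.Ge 0 (eval (pt g) (mT (T h) Z + C (eval (pt h) Z) - lt m h Z)) := by
  have h1 : v.Ge 0 (((T h).comp (T g)) z - T (mul m h g) z) :=
    ge_sub_of_lim (IsoE.comp' (hiso h) (hiso g)) (hiso _) (fun f hf => hlaw h g f hf) hz
  have h2 := IsoE.ge' (hiso h) (hZ g)
  have h3 := hZ h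
  have h4 := hZ (mul m h g)
  have e : eval (pt g) (mT (T h) Z + C (eval (pt h) Z) - lt m h Z) =
      (((T h).comp (T g)) z - T (mul m h g) z) - T h (T g z - z - eval (pt g) Z) -
      (T h z - z - eval (pt h) Z) + (T (mul m h g) z - z - eval (pt (mul m h g)) Z) := by
    rw [map_sub, map_add, eval_C, eval_mT, eval_lt, map_sub, map_sub]
    change _ = (T h (T g z) - _) - _ - _ + _
    ring
  rw [e]
  exact ((h1.sub h2).sub h3).add h4

/-- **The jets**: `T_h Z + Z(h) - Z(h·g)` has coefficients in `O_0`. -/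
theorem ge_jet [Infinite k] (hk : Ctx0 k v) (hiso : ∀ h, IsoE v v (T h))
    (hlaw : ∀ h g, ∀ f ∈ E, T h (T g f) = T (mul m h g) f) {z : Ω} (hz : Lim v E 0 z)
    {Z : MvPolynomial (Fin 2) Ω} (hZ : ∀ h, v.Ge 0 (T h z - z - eval (pt h) Z))
    (h : Fin 2 → k) (g : Ex) :
    v.Ge 0 (coeff g (mT (T h) Z + C (eval (pt h) Z) - lt m h Z)) :=
  ge_coeff hk (fun c => ge_jet_pt hiso hlaw hz hZ h c) g

end jets

section tie

variable {p : ℕ} [hp : Fact p.Prime] [CharP Ω p] {κ : ℕ → k} {t : ℕ}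
  {T : (Fin 2 → k) → Ω →ₐ[k] Ω} {D De : Ω → Ω}

/-- Coefficientwise additive map. -/
noncomputable def mD (De : Ω → Ω) (f : MvPolynomial (Fin 2) Ω) : MvPolynomial (Fin 2) Ω :=
  ∑ g ∈ f.support, monomial g (De (coeff g f))

omit hp [CharP Ω p] in
theorem coeff_mD (h0 : De 0 = 0) (f : MvPolynomial (Fin 2) Ω) (g : Ex) :
    coeff g (mD De f) = De (coeff g f) := by
  classical
  unfold mD
  rw [coeff_sum]
  by_cases hg : g ∈ f.support
  · rw [Finset.sum_eq_single_of_mem g hg, coeff_monomial, if_pos rfl]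
    intro b _ hb
    rw [coeff_monomial, if_neg hb]
  · rw [Finset.sum_eq_zero, notMem_support_iff.1 hg, h0]
    intro b hb
    rw [coeff_monomial, if_neg]
    rintro rfl
    exact hg hb

omit hp [CharP Ω p] in
theorem eval_mD (hadd : ∀ a b, De (a + b) = De a + De b)
    (hsm : ∀ (c : k) (a : Ω), De (algebraMap k Ω c * a) = algebraMap k Ω c * De a)
    (f : MvPolynomial (Fin 2) Ω) (s : Fin 2 → k) :
    eval (pt s) (mD De f) = De (eval (pt s) f) := by
  have h0 : De 0 = 0 := by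
    have := hadd 0 0
    rw [add_zero] at this
    exact left_eq_add.1 this
  have hsum : ∀ (S : Finset Ex) (f : Ex → Ω), De (∑ i ∈ S, f i) = ∑ i ∈ S, De (f i) := by
    classical
    intro S f
    induction S using Finset.induction_on with
    | empty => rw [Finset.sum_empty, Finset.sum_empty, h0]
    | insert i S hi ih => rw [Finset.sum_insert hi, Finset.sum_insert hi, hadd, ih]
  have hm : ∀ m : Ex, (m.prod fun i e => pt (Ω := Ω) s i ^ e) =
      algebraMap k Ω (m.prod fun i e => s i ^ e) := by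
    intro m
    rw [Finsupp.prod, Finsupp.prod, map_prod]
    refine Finset.prod_congr rfl fun i _ => ?_
    rw [map_pow]
    rfl
  unfold mD
  rw [map_sum]
  conv_rhs => rw [f.as_sum, map_sum]
  rw [hsum]
  refine Finset.sum_congr rfl fun m _ => ?_
  rw [eval_monomial, eval_monomial, hm, mul_comm, mul_comm (coeff m f), hsm]

/-- **The tie at the points of `k²`.** -/
theorem tie_ge_pt (hk : Ctx0 k v) (hiso : ∀ h, IsoE v v (T h)) (hEF : E ≤ F)
    (hTE : ∀ h, ∀ f ∈ E, T h f ∈ E) (hTF : ∀ h, ∀ f ∈ F, T h f ∈ F) (hD : Drv v F D)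
    (hadd : ∀ a b, De (a + b) = De a + De b) (hnorm : ∀ a (r : ℝ), v.Ge r a → v.Ge r (De a))
    {e : k} (hDe : ∀ f ∈ E, De f = algebraMap k Ω e * D f) {x z a₀ : Ω} (hxF : x ∈ F)
    (hTx : ∀ h, T h x = x) (hx : v.Ge 0 (D x)) (ha : a₀ ∈ F) {Z : MvPolynomial (Fin 2) Ω}
    (hZ : ∀ h, v.Ge 0 (T h z - z - eval (pt h) Z))
    (ht : ∀ ε : ℝ, 0 < ε → ∃ θ ∈ E, v.Ge (-ε) (z - θ) ∧
      ∃ g ∈ F, v.Ge (-ε) (algebraMap k Ω e * θ + x * PP p κ t θ + a₀ - g ^ p))
    (h : Fin 2 → k) :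
    v.Ge 0 (De (eval (pt h) Z) + D x * PP p κ t (eval (pt h) Z) + D (T h a₀ - a₀)) := by
  have hp0 : (0 : ℝ) < p ^ (t + 1) := by
    have : (0 : ℝ) < p := by exact_mod_cast hp.out.pos
    positivity
  refine ge_zero_of_eps' hp0 fun ε hε => ?_
  obtain ⟨θ, hθ, h1, g, hg, h2⟩ := ht ε hε
  set y := T h θ - θ with hy
  have hyE : y ∈ E := sub_mem (hTE h θ hθ) hθ
  have hyF : y ∈ F := hEF hyE
  have hPPF : PP p κ t y ∈ F := PP_mem hyF
  set gp := T h g - g with hgp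
  have hgF : gp ∈ F := sub_mem (hTF h g hg) hg
  have hAF : T h a₀ - a₀ ∈ F := sub_mem (hTF h a₀ ha) ha
  set R := algebraMap k Ω e * y + x * PP p κ t y + (T h a₀ - a₀) - gp ^ p with hR
  have hR1 : v.Ge (-ε) R := by
    have e1 : R = T h (algebraMap k Ω e * θ + x * PP p κ t θ + a₀ - g ^ p) -
        (algebraMap k Ω e * θ + x * PP p κ t θ + a₀ - g ^ p) := by
      rw [hR, hy, hgp, sub_pow_char, PP_sub, map_sub, map_add, map_add, map_mul, map_mul,
        AlgHom.commutes, hTx h, PP_map, map_pow]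
      ring
    rw [e1]
    exact (IsoE.ge' (hiso h) h2).sub h2
  have hm1 : algebraMap k Ω e * y ∈ F := mul_mem (F.algebraMap_mem _) hyF
  have hm2 : x * PP p κ t y ∈ F := mul_mem hxF hPPF
  have hRF : R ∈ F := sub_mem (add_mem (add_mem hm1 hm2) hAF) (pow_mem hgF p)
  have hDR := hD.norm R hRF _ hR1
  have e2 : D R = De y + D x * PP p κ t y + D (T h a₀ - a₀) := by
    rw [hR, hD.map_sub (add_mem (add_mem hm1 hm2) hAF) (pow_mem hgF p), hD.map_pow_char hgF,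
      sub_zero, hD.add _ (add_mem hm1 hm2) _ hAF, hD.add _ hm1 _ hm2, hD.map_smul _ hyF,
      hD.mul x hxF _ hPPF, hD.map_PP hyF, mul_zero, zero_add, mul_comm (PP p κ t y), hDe y hyE]
  have h3 : v.Ge (-ε) (eval (pt h) Z - y) := by
    have h4 := hZ h
    have e3 : eval (pt h) Z - y = -(T h z - z - eval (pt h) Z) +
        (T h (z - θ) - (z - θ)) := by
      rw [hy, map_sub]
      ring
    rw [e3]
    exact ((h4.mono (by linarith)).neg).add ((IsoE.ge' (hiso h) h1).sub h1)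
  have h5 := hnorm _ _ h3
  have e5 : De (eval (pt h) Z - y) = De (eval (pt h) Z) - De y := by
    have := hadd (eval (pt h) Z - y) y
    rw [sub_add_cancel] at this
    rw [this]
    ring
  rw [e5] at h5
  have h6 := ge_PP (p := p) (κ := κ) (t := t) hk hε h3
  rw [PP_sub] at h6
  have hle : -(p ^ (t + 1) * ε) ≤ -ε := by
    have : (1 : ℝ) ≤ p ^ (t + 1) := by
      have hp1 : (1 : ℝ) ≤ p := by exact_mod_cast hp.out.one_lt.le
      exact one_le_pow₀ hp1
    nlinarith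
  have h8 := hx.mul h6
  rw [zero_add] at h8
  have h9 := ((hDR.mono hle).add (h5.mono hle)).add h8
  convert h9 using 1
  rw [e2]
  ring

/-- The polynomial of the tie. -/
noncomputable def tP (p : ℕ) (De : Ω → Ω) (ξ : Ω) (κ : ℕ → k) (t : ℕ)
    (Z dA : MvPolynomial (Fin 2) Ω) : MvPolynomial (Fin 2) Ω :=
  mD De Z + C ξ * PP p κ t Z + dA

omit hp [CharP Ω p] in
theorem eval_tP (hadd : ∀ a b, De (a + b) = De a + De b)
    (hsm : ∀ (c : k) (a : Ω), De (algebraMap k Ω c * a) = algebraMap k Ω c * De a) (ξ : Ω)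
    (Z dA : MvPolynomial (Fin 2) Ω) (h : Fin 2 → k) :
    eval (pt h) (tP p De ξ κ t Z dA) =
      De (eval (pt h) Z) + ξ * PP p κ t (eval (pt h) Z) + eval (pt h) dA := by
  unfold tP
  rw [map_add, map_add, eval_mD hadd hsm, map_mul, eval_C, eval_PP]

/-- **The tie**: `De Z + D x · P(Z) + dA` has coefficients in `O_0`. -/
theorem tie_ge [Infinite k] (hk : Ctx0 k v) (hiso : ∀ h, IsoE v v (T h)) (hEF : E ≤ F)
    (hTE : ∀ h, ∀ f ∈ E, T h f ∈ E) (hTF : ∀ h, ∀ f ∈ F, T h f ∈ F) (hD : Drv v F D)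
    (hadd : ∀ a b, De (a + b) = De a + De b)
    (hsm : ∀ (c : k) (a : Ω), De (algebraMap k Ω c * a) = algebraMap k Ω c * De a)
    (hnorm : ∀ a (r : ℝ), v.Ge r a → v.Ge r (De a))
    {e : k} (hDe : ∀ f ∈ E, De f = algebraMap k Ω e * D f) {x z a₀ : Ω} (hxF : x ∈ F)
    (hTx : ∀ h, T h x = x) (hx : v.Ge 0 (D x)) (ha : a₀ ∈ F) {Z dA : MvPolynomial (Fin 2) Ω}
    (hZ : ∀ h, v.Ge 0 (T h z - z - eval (pt h) Z))
    (hdA : ∀ h, eval (pt h) dA = D (T h a₀ - a₀))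
    (ht : ∀ ε : ℝ, 0 < ε → ∃ θ ∈ E, v.Ge (-ε) (z - θ) ∧
      ∃ g ∈ F, v.Ge (-ε) (algebraMap k Ω e * θ + x * PP p κ t θ + a₀ - g ^ p)) (g : Ex) :
    v.Ge 0 (coeff g (tP p De (D x) κ t Z dA)) := by
  refine ge_coeff hk (fun c => ?_) g
  rw [eval_tP hadd hsm, hdA]
  exact tie_ge_pt hk hiso hEF hTE hTF hD hadd hnorm hDe hxF hTx hx ha hZ ht c

omit hp [CharP Ω p] in
/-- **The tie at a displacement.** -/
theorem tie_real [CharP Ω p] (hEF : E ≤ F) (hD : Drv v F D) {e : k}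
    (hDe : ∀ f ∈ E, De f = algebraMap k Ω e * D f) {x : Ω} (hxF : x ∈ F) {Za A f : Ω}
    (hZa : Za ∈ E) (hA : A ∈ F) (hf : f ∈ F)
    (h : VPos v (algebraMap k Ω e * Za + x * PP p κ t Za + A - f ^ p)) :
    VPos v (De Za + D x * PP p κ t Za + D A) := by
  have hm1 : algebraMap k Ω e * Za ∈ F := mul_mem (F.algebraMap_mem _) (hEF hZa)
  have hPP : PP p κ t Za ∈ F := PP_mem (hEF hZa)
  have hm2 : x * PP p κ t Za ∈ F := mul_mem hxF hPP
  have h1 := hD.vpos (sub_mem (add_mem (add_mem hm1 hm2) hA) (pow_mem hf p)) h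
  rw [hD.map_sub (add_mem (add_mem hm1 hm2) hA) (pow_mem hf p), hD.map_pow_char hf,
    sub_zero, hD.add _ (add_mem hm1 hm2) _ hA, hD.add _ hm1 _ hm2, hD.map_smul _ (hEF hZa),
    hD.mul x hxF _ hPP, hD.map_PP (hEF hZa), mul_zero, zero_add, mul_comm (PP p κ t Za),
    ← hDe Za hZa] at h1
  exact h1

end tie

section om

variable {T : (Fin 2 → k) → Ω →ₐ[k] Ω} {m : (Fin 2 → k) → Fin 2 → MvPolynomial (Fin 2) k}
  {D : Ω → Ω}

/-- The cocycle of `dA`, at the points. -/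
theorem om_eq (hD : Drv v F D) (hTF : ∀ h, ∀ f ∈ F, T h f ∈ F)
    {a₀ : Ω} (ha : a₀ ∈ F) {dA : MvPolynomial (Fin 2) Ω}
    (hdA : ∀ h, eval (pt h) dA = D (T h a₀ - a₀)) {h g : Fin 2 → k}
    (hlaw : T h (T g a₀) = T (mul m h g) a₀) :
    eval (pt g) (mT (T h) dA + C (eval (pt h) dA) - lt m h dA) =
      T h (D (T g a₀ - a₀)) - D (T h (T g a₀ - a₀)) := by
  have e1 : D (T h a₀ - a₀) = D (T h a₀) - D a₀ := hD.map_sub (hTF h a₀ ha) ha
  have e2 : D (T h (T g a₀) - a₀) = D (T h (T g a₀)) - D a₀ :=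
    hD.map_sub (hTF h _ (hTF g a₀ ha)) ha
  have e3 : D (T h (T g a₀) - T h a₀) = D (T h (T g a₀)) - D (T h a₀) :=
    hD.map_sub (hTF h _ (hTF g a₀ ha)) (hTF h a₀ ha)
  rw [map_sub, map_add, eval_C, eval_mT, eval_lt, hdA, hdA, hdA, ← hlaw, e1, e2,
    map_sub (T h) (T g a₀) a₀, e3]
  ring

theorem om_zero [Infinite k] (hD : Drv v F D) (hTF : ∀ h, ∀ f ∈ F, T h f ∈ F)
    {a₀ : Ω} (ha : a₀ ∈ F) {dA : MvPolynomial (Fin 2) Ω}
    (hdA : ∀ h, eval (pt h) dA = D (T h a₀ - a₀)) {h : Fin 2 → k}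
    (hlaw : ∀ g, T h (T g a₀) = T (mul m h g) a₀)
    (hDT : ∀ g, D (T h (T g a₀ - a₀)) = T h (D (T g a₀ - a₀))) :
    mT (T h) dA + C (eval (pt h) dA) = lt m h dA := by
  have h0 : ∀ f : MvPolynomial (Fin 2) Ω, (∀ g : Fin 2 → k, eval (pt g) f = 0) → f = 0 := by
    intro f hf
    have hinj : Function.Injective (algebraMap k Ω) := (algebraMap k Ω).injective
    refine MvPolynomial.funext_set (s := fun _ => Set.range (algebraMap k Ω))
      (fun _ => Set.infinite_range_of_injective hinj) fun x hx => ?_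
    choose c hc using fun i => hx i (Set.mem_univ i)
    have : x = pt c := by
      funext i
      exact (hc i).symm
    rw [this, hf, map_zero]
  refine sub_eq_zero.1 (h0 _ fun g => ?_)
  rw [om_eq hD hTF ha hdA (hlaw g), hDT, sub_self]

end om

end Pool.Agent.TWCF
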